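import Pool.Agent.Run7.h88.LS.Prt
import Pool.Agent.N441.LS.LPA
import Pool.Agent.N297.LS.Lpk
import Pool.Agent.N558.LS.MUL
import Pool.Agent.N413.LS.BES
import Pool.Agent.N764.LS.PD
import Pool.Agent.N562.LS.BW
import Pool.Agent.N362.LS.ENA
import Pool.Agent.N914.LS.ENB
import Pool.Agent.N655.LS.EN
import Pool.Agent.N287.LS.YOU

/-!
# Random multipliers and the wave equation (MP_ee74d2_an), part 9: the theorems
-/

set_option autoImplicit false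

namespace Pool.Agent.Run7.h88.LS

open MeasureTheory Pool.Agent.N303.LS Pool.Agent.N262.LS
open scoped ENNReal FourierTransform RealInnerProductSpace SchwartzMap ComplexConjugate

/-- the bound for a random multiplier -/
def Bd {d : ℕ} {Ω : Type} [MeasurableSpace Ω] (χ : 𝓢(E d, ℂ)) (p s C : ℝ) (P : Measure Ω)
    (a : Ω → (Fin d → ℤ) → ℂ) : Prop :=
  ∀ (u₀ u₁ : 𝓢(E d, ℂ)) (t : ℝ), 0 ≤ t → t ≤ 2 →
      ∫⁻ ω, (∫⁻ x : E d, ‖wave (fun ξ => mlt χ (a ω) ξ * 𝓕 (u₀ : E d → ℂ) ξ)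
        (fun ξ => mlt χ (a ω) ξ * 𝓕 (u₁ : E d → ℂ) ξ) t x‖ₑ ^ p) ∂P ≤
        ENNReal.ofReal C *
          ((∫⁻ x : E d, ‖inv (fun ξ => bes s ξ * 𝓕 (u₀ : E d → ℂ) ξ) x‖ₑ ^ p) +
            ∫⁻ x : E d, ‖inv (fun ξ => bes (s - 1) ξ * 𝓕 (u₁ : E d → ℂ) ξ) x‖ₑ ^ p)

lemma Bd.mono {d : ℕ} {Ω : Type} [MeasurableSpace Ω] {χ : 𝓢(E d, ℂ)} {p s C C' : ℝ}
    {P : Measure Ω} {a : Ω → (Fin d → ℤ) → ℂ} (h : Bd χ p s C P a) (hC : C ≤ C') :
    Bd χ p s C' P a := fun u₀ u₁ t h0 h2 =>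
  (h u₀ u₁ t h0 h2).trans (mul_le_mul_left (ENNReal.ofReal_le_ofReal hC) _)

lemma Lam.mono {d : ℕ} {p Λ Λ' : ℝ} {S : Finset (Fin d → ℤ)} {a : (Fin d → ℤ) → ℂ}
    (h : Lam p Λ S a) (hΛ : 0 ≤ Λ) (hp : 0 ≤ p) (hle : Λ ≤ Λ') : Lam p Λ' S a := fun c =>
  (h c).trans (mul_le_mul_left (ENNReal.ofReal_le_ofReal (Real.rpow_le_rpow hΛ hle hp)) _)

/-- cells with few representations are `Λ(p)` sets, `2 ≤ p ≤ 4` -/
lemma lamSet_rep {d : ℕ} {ι : Type} (cell : (Fin d → ℤ) → ι) (p θ β A : ℝ) (hp : 2 ≤ p)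
    (hp4 : p ≤ 4) (hβ : β * (1 / 2 - 1 / p) ≤ θ) (hA : 0 ≤ A) (i : ι) (R : ℕ) (hR : 1 ≤ R)
    (h : ∀ T : Finset (Fin d → ℤ), (∀ m ∈ T, cell m = i ∧ ∀ j, |m j| < R) → ∀ v,
      ((prs T v).card : ℝ) ≤ A * (R : ℝ) ^ β) :
    LamSet p ((((2 : ℝ) ^ d) ^ (1 / p) * A ^ (1 / 2 - 1 / p)) * (R : ℝ) ^ θ)
      {m | cell m = i ∧ ∀ j, |m j| < R} := by
  intro U hU c
  have hp0 : 0 < p := by linarith
  have hR1 : (1 : ℝ) ≤ R := by exact_mod_cast hR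
  have h1 := lam_rep d p hp hp4 U (A * (R : ℝ) ^ β) (h U fun m hm => hU hm)
  have h2 : ((2 : ℝ) ^ d) ^ (1 / p) * (A * (R : ℝ) ^ β) ^ (1 / 2 - 1 / p) ≤
      (((2 : ℝ) ^ d) ^ (1 / p) * A ^ (1 / 2 - 1 / p)) * (R : ℝ) ^ θ := by
    rw [Real.mul_rpow hA (by positivity), ← mul_assoc, ← Real.rpow_mul (by positivity)]
    gcongr
  have h3 := Lam.mono h1 (by positivity) hp0.le h2
  have h4 := h3 c
  simpa only [one_mul] using h4

lemma pow_cst (d : ℕ) (p A : ℝ) (hp : 2 ≤ p) (hA : 0 ≤ A) :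
    (((2 : ℝ) ^ d) ^ (1 / p) * A ^ (1 / 2 - 1 / p)) ^ p = 2 ^ d * A ^ (p / 2 - 1) := by
  have hp0 : 0 < p := by linarith
  rw [Real.mul_rpow (by positivity) (by positivity), ← Real.rpow_mul (by positivity),
    one_div_mul_cancel hp0.ne', Real.rpow_one, ← Real.rpow_mul hA]
  congr 2
  field_simp

open Classical in
/-- the pairs in a cell and their first elements -/
lemma prs_card {d : ℕ} {ι : Type} (cell : (Fin d → ℤ) → ι) (i : ι) (R : ℕ)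
    (U : Finset (Fin d → ℤ)) (hU : ∀ m ∈ U, cell m = i ∧ ∀ j, |m j| < R) (v : Fin d → ℤ) :
    (prs U v).card ≤ Set.ncard {m : Fin d → ℤ | cell m = i ∧ cell (v - m) = i ∧
      (∀ j, |m j| < R) ∧ ∀ j, |(v - m) j| < R} := by
  have hfin : {m : Fin d → ℤ | cell m = i ∧ cell (v - m) = i ∧
      (∀ j, |m j| < R) ∧ ∀ j, |(v - m) j| < R}.Finite := by
    refine Set.Finite.subset (Fintype.piFinset fun _ : Fin d =>
      Finset.Icc (-(R : ℤ)) R).finite_toSet ?_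
    intro m hm
    rw [Finset.mem_coe, Fintype.mem_piFinset]
    intro j
    rw [Finset.mem_Icc]
    exact abs_le.1 (hm.2.2.1 j).le
  have hinj : Set.InjOn Prod.fst (prs U v : Set ((Fin d → ℤ) × (Fin d → ℤ))) := by
    intro z hz w hw hzw
    rw [Finset.mem_coe] at hz hw
    unfold prs at hz hw
    have h1 := (Finset.mem_filter.1 hz).2
    have h2 := (Finset.mem_filter.1 hw).2
    refine Prod.ext hzw ?_
    rw [← h2, hzw] at h1
    exact add_left_cancel h1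
  rw [← Finset.card_image_of_injOn hinj, ← Set.ncard_coe_finset]
  refine Set.ncard_le_ncard ?_ hfin
  intro m hm
  rw [Finset.mem_coe, Finset.mem_image] at hm
  obtain ⟨z, hz, rfl⟩ := hm
  unfold prs at hz
  rw [Finset.mem_filter, Finset.mem_product] at hz
  obtain ⟨⟨h1, h2⟩, h3⟩ := hz
  have h4 : v - z.1 = z.2 := by rw [← h3, add_sub_cancel_left]
  have g1 := hU _ h1
  have g2 := hU _ h2
  exact ⟨g1.1, by rw [h4]; exact g2.1, g1.2, by rw [h4]; exact g2.2⟩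

/-- the theorems -/
theorem main (d : ℕ) (p θ s : ℝ) (hp : 2 ≤ p) (hθ : 0 ≤ θ) (hθ2 : θ < 2) (hs : θ < s)
    (χ : 𝓢(E d, ℂ)) (hχc : HasCompactSupport (χ : E d → ℂ)) :
    ∃ C : ℝ, 0 < C ∧ ∀ (Ω : Type) [MeasurableSpace Ω] (P : Measure Ω) [IsProbabilityMeasure P],
      (∀ a : Ω → (Fin d → ℤ) → ℂ, (∀ m, Measurable fun ω => a ω m) → (∀ ω m, ‖a ω m‖ ≤ 1) →
        ∀ A : ℝ, 0 ≤ A → (∀ R : ℕ, 1 ≤ R → ∀ T : Finset (Fin d → ℤ), (∀ m ∈ T, ∀ i, |m i| < R) →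
          ∀ c : (Fin d → ℤ) → ℂ, ∫⁻ ω, (∫⁻ x in UC d, ‖∑ m ∈ T, a ω m * c m *
            Complex.exp (((2 * Real.pi * ⟪x, pt m⟫ : ℝ) : ℂ) * Complex.I)‖ₑ ^ p) ∂P ≤
              ENNReal.ofReal ((A * (R : ℝ) ^ θ) ^ p) * (∑ m ∈ T, ‖c m‖ₑ ^ (2 : ℝ)) ^ (p / 2)) →
        Bd χ p s (C * A ^ p) P a) ∧
      ∀ (ι : Type) (ε : ι → Ω → Bool), Coins P ε → ∀ cell : (Fin d → ℤ) → ι,
        (∀ A : ℝ, 0 ≤ A →
          (∀ (i : ι) (R : ℕ), 1 ≤ R → LamSet p (A * (R : ℝ) ^ θ) {m | cell m = i ∧ ∀ j, |m j| < R}) →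
          Bd χ p s (C * A ^ p) P fun ω m => if ε (cell m) ω then 1 else -1) ∧
        (p ≤ 4 → ∀ β A : ℝ, β * (1 / 2 - 1 / p) ≤ θ → 0 ≤ A →
          (∀ (i : ι) (R : ℕ), 1 ≤ R → ∀ v : Fin d → ℤ,
            (Set.ncard {m : Fin d → ℤ | cell m = i ∧ cell (v - m) = i ∧
              (∀ j, |m j| < R) ∧ ∀ j, |(v - m) j| < R} : ℝ) ≤ A * (R : ℝ) ^ β) →
          Bd χ p s (C * A ^ (p / 2 - 1)) P fun ω m => if ε (cell m) ω then 1 else -1) := by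
  classical
  have hEN := Pool.Agent.N655.LS.t_en Pool.Agent.N362.LS.t_ena Pool.Agent.N303.LS.t_enb
  have hBP := Pool.Agent.N303.LS.bp Pool.Agent.N558.LS.t_mul Pool.Agent.N413.LSBES.t_bes
  have hLPK := Pool.Agent.N297.LPK.t_lpk (Pool.Agent.N441.LS.t_lpa Pool.Agent.N558.LS.t_mul)
  obtain ⟨CG, hCG, hG⟩ := finM Pool.Agent.N764.LS.PD.t_pd Pool.Agent.N562.LS.t_bw hEN
    Pool.Agent.N287.LS.t_you hLPK hBP d p θ s hp hθ hθ2 hs χ hχc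
  obtain ⟨CK, hCK, hK⟩ := lam_signs p hp
  have hp0 : 0 < p := by linarith
  have h2d : (1 : ℝ) ≤ 2 ^ d := one_le_pow₀ (by norm_num)
  have hKp : 0 < CK ^ p := by positivity
  obtain ⟨C, hC⟩ : ∃ C : ℝ, C = CG * (1 + CK ^ p) * 2 ^ d := ⟨_, rfl⟩
  have hC1 : CG ≤ C := by
    rw [hC]
    calc CG = CG * 1 * 1 := by ring
      _ ≤ CG * (1 + CK ^ p) * 2 ^ d := by gcongr; linarith
  have hC2 : CG * CK ^ p ≤ C := by
    rw [hC]
    calc CG * CK ^ p = CG * CK ^ p * 1 := by ring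
      _ ≤ CG * (1 + CK ^ p) * 2 ^ d := by gcongr; linarith
  have hC3 : CG * CK ^ p * 2 ^ d ≤ C := by
    rw [hC]
    gcongr
    linarith
  refine ⟨C, by linarith, ?_⟩
  intro Ω _ P _
  -- signs
  have hsg : ∀ (ι : Type) (ε : ι → Ω → Bool), Coins P ε → ∀ cell : (Fin d → ℤ) → ι,
      ∀ A : ℝ, 0 ≤ A →
      (∀ (i : ι) (R : ℕ), 1 ≤ R → LamSet p (A * (R : ℝ) ^ θ) {m | cell m = i ∧ ∀ j, |m j| < R}) →
          Bd χ p s (CG * CK ^ p * A ^ p) P fun ω m => if ε (cell m) ω then 1 else -1 := by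
    intro ι ε hε cell A hA hL
    have hmeas : ∀ m : Fin d → ℤ, Measurable fun ω => (if ε (cell m) ω then (1 : ℂ) else -1) := by
      intro m
      exact (measurable_of_finite fun t : Bool => if t then (1 : ℂ) else -1).comp (hε.1 (cell m))
    have hone : ∀ ω (m : Fin d → ℤ), ‖(if ε (cell m) ω then (1 : ℂ) else -1)‖ ≤ 1 := by
      intro ω m
      split_ifs <;> simp
    have hcond : ∀ R : ℕ, 1 ≤ R → ∀ T : Finset (Fin d → ℤ), (∀ m ∈ T, ∀ i, |m i| < R) →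
        LamM P p (CK * A * (R : ℝ) ^ θ) T fun ω m => (if ε (cell m) ω then (1 : ℂ) else -1) := by
      intro R hR T hT
      rw [mul_assoc]
      refine hK d Ω ι P ε hε cell (fun _ => 1) T (A * (R : ℝ) ^ θ) (by positivity) ?_
      intro i U hU hUi c
      have h := hL i R hR U (fun m hm => ⟨hUi m hm, hT m (hU hm)⟩) c
      simpa only [one_mul] using h
    have h := hG Ω P (fun ω m => (if ε (cell m) ω then (1 : ℂ) else -1)) hmeas hone (CK * A)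
      (by positivity) hcond
    intro u₀ u₁ t h0 h2
    refine (h u₀ u₁ t h0 h2).trans (le_of_eq ?_)
    congr 2
    rw [Real.mul_rpow hCK.le hA]
    ring
  refine ⟨?_, ?_⟩
  · intro a ha ha1 A hA hL
    have hcond : ∀ R : ℕ, 1 ≤ R → ∀ T : Finset (Fin d → ℤ), (∀ m ∈ T, ∀ i, |m i| < R) →
        LamM P p (A * (R : ℝ) ^ θ) T a := by
      intro R hR T hT c
      rw [Q_zero]
      exact hL R hR T hT c
    have h : Bd χ p s (CG * A ^ p) P a := hG Ω P a ha ha1 A hA hcond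
    exact h.mono (by gcongr)
  · intro ι ε hε cell
    refine ⟨fun A hA hL => (hsg ι ε hε cell A hA hL).mono (by gcongr), ?_⟩
    intro hp4 β A hβ hA hN
    have hL : ∀ (i : ι) (R : ℕ), 1 ≤ R → LamSet p ((((2 : ℝ) ^ d) ^ (1 / p) *
        A ^ (1 / 2 - 1 / p)) * (R : ℝ) ^ θ) {m | cell m = i ∧ ∀ j, |m j| < R} := by
      intro i R hR
      refine lamSet_rep cell p θ β A hp hp4 hβ hA i R hR fun T hT v => ?_
      refine le_trans ?_ (hN i R hR v)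
      exact_mod_cast prs_card cell i R T hT v
    refine (hsg ι ε hε cell _ (by positivity) hL).mono ?_
    rw [pow_cst d p A hp hA, ← mul_assoc]
    gcongr

/-- the explicit partition -/
theorem mainA (d : ℕ) (hd : 1 ≤ d) (τ : ℝ) (h0 : 0 < τ) (h1 : τ ≤ 1) :
    ∃ (ι : Type) (cell : (Fin d → ℤ) → ι),
      (∃ B : ℝ, ∀ R : ℕ, 1 ≤ R →
        (Set.ncard (cell '' {m : Fin d → ℤ | ∀ i, |m i| < R}) : ℝ) ≤
          B * (R : ℝ) ^ (τ * (((d + 1) / 2 : ℕ) : ℝ))) ∧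
      ∀ (p s : ℝ), 2 ≤ p → p ≤ 4 → (d : ℝ) * (1 - τ) * (1 / 2 - 1 / p) < s →
        (d : ℝ) * (1 - τ) * (1 / 2 - 1 / p) < 2 →
        ∀ χ : 𝓢(E d, ℂ), HasCompactSupport (χ : E d → ℂ) → ∃ C : ℝ, 0 < C ∧
          ∀ (Ω : Type) [MeasurableSpace Ω] (P : Measure Ω) [IsProbabilityMeasure P]
            (ε : ι → Ω → Bool), Coins P ε →
            Bd χ p s C P fun ω m => if ε (cell m) ω then 1 else -1 := by
  obtain ⟨ι, cell, hB, A, hA, hrep⟩ := partition hd τ h0 h1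
  refine ⟨ι, cell, hB, ?_⟩
  intro p s hp hp4 hs h2 χ hχ
  have hp0 : 0 < p := by linarith
  have hhalf : 0 ≤ 1 / 2 - 1 / p := by
    rw [sub_nonneg]
    exact one_div_le_one_div_of_le (by norm_num) hp
  have hθ : 0 ≤ (d : ℝ) * (1 - τ) * (1 / 2 - 1 / p) := by
    have : 0 ≤ 1 - τ := by linarith
    positivity
  obtain ⟨C, hC, h⟩ := main d p ((d : ℝ) * (1 - τ) * (1 / 2 - 1 / p)) s hp hθ h2 hs χ hχ
  refine ⟨C * ((((2 : ℝ) ^ d) ^ (1 / p) * A ^ (1 / 2 - 1 / p)) ^ p) + 1, by positivity, ?_⟩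
  intro Ω _ P _ ε hε
  refine (((h Ω P).2 ι ε hε cell).1 (((2 : ℝ) ^ d) ^ (1 / p) * A ^ (1 / 2 - 1 / p))
    (by positivity) ?_).mono (by linarith)
  intro i R hR
  exact lamSet_rep cell p _ _ A hp hp4 le_rfl hA i R hR (hrep i R hR)

end Pool.Agent.Run7.h88.LS
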