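import Pool.Agent.Run7.h88.LS.Lim

/-!
# Random multipliers and the wave equation (MP_ee74d2_an), part 5: the generators of the shells
-/

set_option autoImplicit false

namespace Pool.Agent.Run7.h88.LS

open MeasureTheory Pool.Agent.N303.LS Pool.Agent.N262.LS
open scoped ENNReal FourierTransform RealInnerProductSpace SchwartzMap ComplexConjugate

section

variable {d : ℕ}

/-- the norms of the generators -/
lemma gen1 (hBP : S_BP) (d : ℕ) (p s s' : ℝ) (hp : 1 ≤ p) (hs : s' < s) :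
    ∃ D : ℝ, 0 < D ∧ ∀ (u₀ u₁ : 𝓢(E d, ℂ)), ∃ hh : Fin d ⊕ Bool → 𝓢(E d, ℂ),
      (∀ k, ∫⁻ x : E d, ‖hh k x‖ₑ ^ p ≤ ENNReal.ofReal D *
        ((∫⁻ x : E d, ‖inv (fun ξ => bes s ξ * 𝓕 (u₀ : E d → ℂ) ξ) x‖ₑ ^ p) +
            ∫⁻ x : E d, ‖inv (fun ξ => bes (s - 1) ξ * 𝓕 (u₁ : E d → ℂ) ξ) x‖ₑ ^ p)) ∧
      (∀ ξ, 𝓕 (u₀ : E d → ℂ) ξ = bes (-s') ξ * 𝓕 (hh (Sum.inr true) : E d → ℂ) ξ) ∧
      ∀ ξ, 𝓕 (u₁ : E d → ℂ) ξ = bes (-s') ξ * 𝓕 (hh (Sum.inr false) : E d → ℂ) ξ +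
        ∑ j, ((2 * Real.pi * ξ j : ℝ) : ℂ) * Complex.I *
          (bes (-s') ξ * 𝓕 (hh (Sum.inl j) : E d → ℂ) ξ) := by
  obtain ⟨B0, hB0, b0⟩ := (hBP d (s - s') p hp).1 (by linarith)
  obtain ⟨B1, hB1, b1⟩ := (hBP d (1 + (s - s')) p hp).1 (by linarith)
  choose B2 hB2 b2 using (hBP d (1 + (s - s')) p hp).2 (by linarith)
  have hsum : 0 ≤ ∑ j, B2 j := Finset.sum_nonneg fun j _ => (hB2 j).le
  refine ⟨B0 + B1 + ∑ j, B2 j, by positivity, fun u₀ u₁ => ?_⟩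
  obtain ⟨F₀, F₁, hh, hF0x, hF1x, hh0, hh1, hhj, e0, e1⟩ := data s s' u₀ u₁
  refine ⟨hh, ?_, e0, e1⟩
  simp only [← hF0x, ← hF1x]
  intro k
  have hB2le : ∀ j, B2 j ≤ ∑ j, B2 j := fun j =>
    Finset.single_le_sum (f := B2) (fun i _ => (hB2 i).le) (Finset.mem_univ j)
  match k with
  | Sum.inr true =>
    simp only [hh0]
    refine (b0 F₀).trans ?_
    gcongr
    · linarith
    · exact le_self_add
  | Sum.inr false =>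
    simp only [hh1]
    refine (b1 F₁).trans ?_
    gcongr
    · linarith
    · exact le_add_self
  | Sum.inl j =>
    simp only [hhj]
    refine (b2 j (-F₁)).trans ?_
    have e : ∫⁻ x : E d, ‖(-F₁ : 𝓢(E d, ℂ)) x‖ₑ ^ p = ∫⁻ x : E d, ‖F₁ x‖ₑ ^ p := by
      refine lintegral_congr fun x => ?_
      rw [neg_apply, enorm_neg]
    rw [e]
    gcongr
    · linarith [hB2le j]
    · exact le_add_self

/-- the localised generators -/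
lemma gen2 (hLPK : S_LPK) (hBP : S_BP) (d a : ℕ) : ∃ ψ : ℕ → E d → ℂ,
    (∀ (k : ℕ) (ξ : E d), (∃ i, (2 : ℝ) ^ k * (3 / 4) ≤ |ξ i|) →
      (∀ i, |ξ i| ≤ (2 : ℝ) ^ k * (9 / 4)) → ψ k ξ = 1) ∧
    ∀ s' p : ℝ, 0 < s' → s' < 2 → 1 ≤ p → ∃ G : ℝ, 0 < G ∧ ∀ (c : ℕ) (h : 𝓢(E d, ℂ)),
      ∃ g : 𝓢(E d, ℂ), (∀ ξ, 𝓕 (g : E d → ℂ) ξ =
        cutM a ψ c ξ * (bes (-s') ξ * 𝓕 (h : E d → ℂ) ξ)) ∧
      ∫⁻ x : E d, ‖g x‖ₑ ^ p ≤ ENNReal.ofReal (G * ((2 : ℝ) ^ (-s' * p)) ^ c) *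
        ∫⁻ x : E d, ‖h x‖ₑ ^ p := by
  obtain ⟨ψ, ψtg, ψ1, hχ⟩ := hLPK d
  refine ⟨ψ, ψ1, fun s' p h0 h2 hp => ?_⟩
  obtain ⟨C5, hC5, h5⟩ := hχ s' p h0 h2 hp
  obtain ⟨B3, hB3, b3⟩ := (hBP d s' p hp).1 h0
  obtain ⟨r, hr⟩ : ∃ r : ℝ, r = (2 : ℝ) ^ (-s' * p) := ⟨_, rfl⟩
  rw [← hr] at h5 ⊢
  have hr0 : 0 < r := by rw [hr]; positivity
  have hr1 : r ≤ 1 := by
    rw [hr]
    exact Real.rpow_le_one_of_one_le_of_nonpos (by norm_num) (by nlinarith)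
  refine ⟨B3 * (r ^ (a + 2))⁻¹ + C5 * r⁻¹, by positivity, fun c h => ?_⟩
  by_cases hc : c ≤ a + 2
  · obtain ⟨g, p1, p2⟩ := mult (bes (-s')) (bes_tg _) h
    refine ⟨g, fun ξ => ?_, ?_⟩
    · rw [p1]
      unfold cutM
      rw [if_pos hc, one_mul]
    · simp only [p2]
      refine (b3 h).trans ?_
      gcongr
      have z1 : r ^ (a + 2) ≤ r ^ c := pow_le_pow_of_le_one hr0.le hr1 hc
      have z2 : B3 ≤ B3 * (r ^ (a + 2))⁻¹ * r ^ c := by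
        rw [mul_assoc]
        refine le_mul_of_one_le_right hB3.le ?_
        rw [inv_mul_eq_div, one_le_div (by positivity)]
        exact z1
      have z3 : 0 ≤ C5 * r⁻¹ * r ^ c := by positivity
      rw [add_mul]
      linarith
  · obtain ⟨k', rfl⟩ : ∃ k', c = k' + 1 := ⟨c - 1, by omega⟩
    obtain ⟨g, p1, p2⟩ := mult (fun ξ => ψ k' ξ * bes (-s') ξ)
      ((ψtg k').mul (bes_tg _)) h
    refine ⟨g, fun ξ => ?_, ?_⟩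
    · rw [p1]
      unfold cutM
      rw [if_neg hc, Nat.add_sub_cancel]
      ring
    · refine (h5 k' h g fun ξ => by rw [p1]; ring).trans ?_
      refine mul_le_mul_left (ENNReal.ofReal_le_ofReal ?_) _
      have e : (B3 * (r ^ (a + 2))⁻¹ + C5 * r⁻¹) * r ^ (k' + 1) =
          B3 * (r ^ (a + 2))⁻¹ * r ^ (k' + 1) + C5 * r ^ k' := by
        rw [pow_succ r k']
        field_simp
      rw [e]
      have : 0 ≤ B3 * (r ^ (a + 2))⁻¹ * r ^ (k' + 1) := by positivity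
      linarith

/-- the generators of the shells -/
lemma gen3 (hLPK : S_LPK) (hBP : S_BP) (d a : ℕ) : ∃ ψ : ℕ → E d → ℂ,
    (∀ (k : ℕ) (ξ : E d), (∃ i, (2 : ℝ) ^ k * (3 / 4) ≤ |ξ i|) →
      (∀ i, |ξ i| ≤ (2 : ℝ) ^ k * (9 / 4)) → ψ k ξ = 1) ∧
    ∀ s s' p : ℝ, 0 < s' → s' < 2 → s' < s → 1 ≤ p → ∃ G : ℝ, 0 < G ∧
      ∀ (c : ℕ) (u₀ u₁ : 𝓢(E d, ℂ)), ∃ (f₀ f₁ g₀ : 𝓢(E d, ℂ)) (g : Fin d → 𝓢(E d, ℂ)),
        (∀ x, f₁ x = g₀ x + ∑ j, lineDeriv ℝ (g j) x (EuclideanSpace.single j (1 : ℝ))) ∧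
        (∀ ξ, 𝓕 (f₀ : E d → ℂ) ξ = cutM a ψ c ξ * 𝓕 (u₀ : E d → ℂ) ξ) ∧
        (∀ ξ, 𝓕 (f₁ : E d → ℂ) ξ = cutM a ψ c ξ * 𝓕 (u₁ : E d → ℂ) ξ) ∧
        (∫⁻ x : E d, ‖f₀ x‖ₑ ^ p) + (∫⁻ x : E d, ‖g₀ x‖ₑ ^ p) +
            ∑ j, ∫⁻ x : E d, ‖g j x‖ₑ ^ p ≤
          ENNReal.ofReal (G * ((2 : ℝ) ^ (-s' * p)) ^ c) *
          ((∫⁻ x : E d, ‖inv (fun ξ => bes s ξ * 𝓕 (u₀ : E d → ℂ) ξ) x‖ₑ ^ p) +
            ∫⁻ x : E d, ‖inv (fun ξ => bes (s - 1) ξ * 𝓕 (u₁ : E d → ℂ) ξ) x‖ₑ ^ p) := by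
  obtain ⟨ψ, ψ1, h2⟩ := gen2 hLPK hBP d a
  refine ⟨ψ, ψ1, fun s s' p a1 a2 a3 hp => ?_⟩
  obtain ⟨G, hG, hg⟩ := h2 s' p a1 a2 hp
  obtain ⟨D, hD, hd⟩ := gen1 hBP d p s s' hp a3
  refine ⟨((d : ℝ) + 2) * (G * D), by positivity, fun c u₀ u₁ => ?_⟩
  obtain ⟨hh, hn, e0, e1⟩ := hd u₀ u₁
  choose pg pg1 pg2 using fun k => hg c (hh k)
  have hsl := sum_line (pg (Sum.inr false)) (fun j => pg (Sum.inl j))
  obtain ⟨Y, hY⟩ : ∃ Y : ℝ≥0∞, Y =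
      (∫⁻ x : E d, ‖inv (fun ξ => bes s ξ * 𝓕 (u₀ : E d → ℂ) ξ) x‖ₑ ^ p) +
            ∫⁻ x : E d, ‖inv (fun ξ => bes (s - 1) ξ * 𝓕 (u₁ : E d → ℂ) ξ) x‖ₑ ^ p := ⟨_, rfl⟩
  rw [← hY] at hn ⊢
  obtain ⟨r, hr⟩ : ∃ r : ℝ, r = (2 : ℝ) ^ (-s' * p) := ⟨_, rfl⟩
  rw [← hr] at pg2 ⊢
  have hr0 : 0 < r := by rw [hr]; positivity
  refine ⟨pg (Sum.inr true), pg (Sum.inr false) + ∑ j, LineDeriv.lineDerivOp
      (EuclideanSpace.single j (1 : ℝ)) (pg (Sum.inl j)), pg (Sum.inr false),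
      fun j => pg (Sum.inl j), hsl, fun ξ => ?_, fun ξ => ?_, ?_⟩
  · rw [pg1, ← e0]
  · rw [fourier_gen _ (pg (Sum.inr false)) (fun j => pg (Sum.inl j)) hsl ξ]
    simp only [pg1]
    rw [e1 ξ, mul_add, Finset.mul_sum]
    congr 1
    refine Finset.sum_congr rfl fun j _ => ?_
    ring
  · have hone : ∀ k, ∫⁻ x : E d, ‖pg k x‖ₑ ^ p ≤ ENNReal.ofReal (G * r ^ c * D) * Y := by
      intro k
      refine (pg2 k).trans ?_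
      calc ENNReal.ofReal (G * r ^ c) * ∫⁻ x : E d, ‖hh k x‖ₑ ^ p ≤
          ENNReal.ofReal (G * r ^ c) * (ENNReal.ofReal D * Y) := by
            gcongr
            exact hn k
        _ = _ := by
          rw [← mul_assoc, ← ENNReal.ofReal_mul (by positivity)]
    calc _ ≤ ENNReal.ofReal (G * r ^ c * D) * Y + ENNReal.ofReal (G * r ^ c * D) * Y +
            ∑ _j : Fin d, ENNReal.ofReal (G * r ^ c * D) * Y :=
          add_le_add (add_le_add (hone _) (hone _)) (Finset.sum_le_sum fun j _ => hone _)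
      _ = ENNReal.ofReal ((d : ℝ) + 2) * (ENNReal.ofReal (G * r ^ c * D) * Y) := by
          rw [Finset.sum_const, Finset.card_univ, Fintype.card_fin, nsmul_eq_mul,
            ENNReal.ofReal_add (by positivity) (by norm_num), ENNReal.ofReal_natCast,
            ENNReal.ofReal_ofNat]
          ring
      _ = _ := by
          rw [← mul_assoc, ← ENNReal.ofReal_mul (by positivity)]
          congr 2
          ring

end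

/-- **The wave equation and random multipliers.** -/
theorem finM (hPD : S_PD) (hBW : S_BW) (hEN : S_EN) (hYOU : S_YOU) (hLPK : S_LPK) (hBP : S_BP)
    (d : ℕ) (p θ s : ℝ) (hp : 2 ≤ p) (hθ : 0 ≤ θ) (hθ2 : θ < 2) (hs : θ < s) (χ : 𝓢(E d, ℂ))
    (hχc : HasCompactSupport (χ : E d → ℂ)) :
    ∃ C : ℝ, 0 < C ∧ ∀ (Ω : Type) [MeasurableSpace Ω] (μ : Measure Ω) [SFinite μ]
      (α : Ω → (Fin d → ℤ) → ℂ) (_ : ∀ m, Measurable fun ω => α ω m) (_ : ∀ ω m, ‖α ω m‖ ≤ 1)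
      (A : ℝ), 0 ≤ A →
    (∀ (R : ℕ), 1 ≤ R → ∀ T : Finset (Fin d → ℤ), (∀ m ∈ T, ∀ i, |m i| < R) →
      LamM μ p (A * (R : ℝ) ^ θ) T α) →
    ∀ (u₀ u₁ : 𝓢(E d, ℂ)) (t : ℝ), 0 ≤ t → t ≤ 2 →
      ∫⁻ ω, (∫⁻ x : E d, ‖wave (fun ξ => mlt χ (α ω) ξ * 𝓕 (u₀ : E d → ℂ) ξ)
        (fun ξ => mlt χ (α ω) ξ * 𝓕 (u₁ : E d → ℂ) ξ) t x‖ₑ ^ p) ∂μ ≤
        ENNReal.ofReal (C * A ^ p) *
          ((∫⁻ x : E d, ‖inv (fun ξ => bes s ξ * 𝓕 (u₀ : E d → ℂ) ξ) x‖ₑ ^ p) +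
            ∫⁻ x : E d, ‖inv (fun ξ => bes (s - 1) ξ * 𝓕 (u₁ : E d → ℂ) ξ) x‖ₑ ^ p) := by
  obtain ⟨K, hK⟩ : ∃ K : 𝓢(E d, ℂ), ∀ ξ, 𝓕 (K : E d → ℂ) ξ = χ ξ :=
    ⟨𝓕⁻ χ, fun ξ => by rw [← SchwartzMap.fourier_coe, FourierTransform.fourier_fourierInv_eq]⟩
  obtain ⟨a, ha⟩ : ∃ a : ℕ, ∀ ξ, χ ξ ≠ 0 → ∀ i, |ξ i| ≤ 2 ^ a := by
    obtain ⟨R, hR⟩ := hχc.isCompact.isBounded.exists_norm_le
    obtain ⟨a, ha⟩ := pow_unbounded_of_one_lt R (by norm_num : (1 : ℝ) < 2)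
    refine ⟨a, fun ξ hξ i => ?_⟩
    have h1 := hR ξ (subset_tsupport _ hξ)
    have h2 : |ξ i| ≤ ‖ξ‖ := PiLp.norm_apply_le ξ i
    exact h2.trans (h1.trans ha.le)
  have haK : ∀ ξ, 𝓕 (K : E d → ℂ) ξ ≠ 0 → ∀ i, |ξ i| ≤ 2 ^ a := fun ξ hξ => ha ξ (by rwa [hK] at hξ)
  obtain ⟨C4, hC4, h4⟩ := fin4M hEN hYOU hPD hBW d p hp K
  obtain ⟨ψ, ψ1, h5⟩ := gen3 hLPK hBP d a
  have hp0 : 0 < p := by linarith
  obtain ⟨s', a1, a2, a3⟩ : ∃ s' : ℝ, θ < s' ∧ s' < s ∧ s' < 2 := by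
    have hm3 : θ < min s 2 := lt_min hs hθ2
    have hm1 : min s 2 ≤ s := min_le_left _ _
    have hm2 : min s 2 ≤ 2 := min_le_right _ _
    exact ⟨(θ + min s 2) / 2, by linarith, by linarith, by linarith⟩
  obtain ⟨G, hG, hg⟩ := h5 s s' p (by linarith) a3 a2 (by linarith)
  obtain ⟨q, hq⟩ : ∃ q : ℝ, q = (2 : ℝ) ^ (θ - s') := ⟨_, rfl⟩
  have hq0 : 0 < q := by rw [hq]; positivity
  have hq1 : q < 1 := by
    rw [hq]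
    exact Real.rpow_lt_one_of_one_lt_of_neg (by norm_num) (by linarith)
  have h1q : 0 < 1 - q := by linarith
  refine ⟨C4 * G / (1 - q) ^ p, by positivity, ?_⟩
  intro Ω _ μ _ α hα hα1 A hA hS u₀ u₁ t ht0 ht2
  obtain ⟨Y, hY⟩ : ∃ Y : ℝ≥0∞, Y =
      (∫⁻ x : E d, ‖inv (fun ξ => bes s ξ * 𝓕 (u₀ : E d → ℂ) ξ) x‖ₑ ^ p) +
            ∫⁻ x : E d, ‖inv (fun ξ => bes (s - 1) ξ * 𝓕 (u₁ : E d → ℂ) ξ) x‖ₑ ^ p := ⟨_, rfl⟩
  have hc : ∀ c, ∫⁻ ω, (∫⁻ x : E d,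
      ‖inv (fun ξ => psia K (cl Set.univ c) (α ω) ξ * wf u₀ u₁ t ξ) x‖ₑ ^ p) ∂μ ≤
        ENNReal.ofReal (((C4 * G) ^ (1 / p) * A) ^ p * (q ^ p) ^ c) * Y := by
    intro c
    obtain ⟨f₀, f₁, g₀, g, hsl, k0, k1, hb⟩ := hg c u₀ u₁
    rw [← hY] at hb
    have hLam : LamM μ p (A * (((2 ^ c : ℕ) : ℝ)) ^ θ) (cl Set.univ c) α := by
      refine hS (2 ^ c) Nat.one_le_two_pow (cl Set.univ c) ?_
      intro m hm i
      have := abs_lt_of_size m c ((mem_cl _ c m).1 hm).2 i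
      push_cast
      exact this
    have hb4 := h4 Ω μ (cl Set.univ c) α hα _ (by positivity) hLam f₀ f₁ g₀ g hsl t ht0 ht2
    have ef0 : ∀ ω, (fun ξ => psia K (cl Set.univ c) (α ω) ξ * 𝓕 (f₀ : E d → ℂ) ξ) =
        fun ξ => psia K (cl Set.univ c) (α ω) ξ * 𝓕 (u₀ : E d → ℂ) ξ := by
      intro ω
      funext ξ
      rw [k0]
      exact cut_mulM a ψ ψ1 K haK (α ω) _ c ξ
    have ef1 : ∀ ω, (fun ξ => psia K (cl Set.univ c) (α ω) ξ * 𝓕 (f₁ : E d → ℂ) ξ) =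
        fun ξ => psia K (cl Set.univ c) (α ω) ξ * 𝓕 (u₁ : E d → ℂ) ξ := by
      intro ω
      funext ξ
      rw [k1]
      exact cut_mulM a ψ ψ1 K haK (α ω) _ c ξ
    have hb5 : ∫⁻ ω, (∫⁻ x : E d,
        ‖inv (fun ξ => psia K (cl Set.univ c) (α ω) ξ * wf u₀ u₁ t ξ) x‖ₑ ^ p) ∂μ ≤
        ENNReal.ofReal (C4 * (A * (((2 ^ c : ℕ) : ℝ)) ^ θ) ^ p) *
          ((∫⁻ x : E d, ‖f₀ x‖ₑ ^ p) + (∫⁻ x : E d, ‖g₀ x‖ₑ ^ p) +
            ∑ j, ∫⁻ x : E d, ‖g j x‖ₑ ^ p) := by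
      refine le_trans (le_of_eq ?_) hb4
      refine lintegral_congr fun ω => lintegral_congr fun x => ?_
      rw [ef0 ω, ef1 ω, wave_mul]
    refine hb5.trans ?_
    calc _ ≤ ENNReal.ofReal (C4 * (A * (((2 ^ c : ℕ) : ℝ)) ^ θ) ^ p) *
          (ENNReal.ofReal (G * ((2 : ℝ) ^ (-s' * p)) ^ c) * Y) := by
          gcongr
      _ = _ := by
          rw [← mul_assoc, ← ENNReal.ofReal_mul (by positivity)]
          congr 2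
          have z1 : (A * (((2 ^ c : ℕ) : ℝ)) ^ θ) ^ p = A ^ p * ((2 : ℝ) ^ (θ * p)) ^ c := by
            rw [Real.mul_rpow hA (by positivity)]
            congr 1
            push_cast
            rw [← Real.rpow_natCast 2 c, ← Real.rpow_mul (by norm_num),
              ← Real.rpow_mul (by norm_num), ← Real.rpow_natCast ((2 : ℝ) ^ (θ * p)) c,
              ← Real.rpow_mul (by norm_num)]
            congr 1
            ring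
          have z2 : ((C4 * G) ^ (1 / p) * A) ^ p = C4 * G * A ^ p := by
            rw [Real.mul_rpow (by positivity) hA, ← Real.rpow_mul (by positivity),
              one_div_mul_cancel hp0.ne', Real.rpow_one]
          have z3 : (q ^ p) ^ c = ((2 : ℝ) ^ (θ * p)) ^ c * ((2 : ℝ) ^ (-s' * p)) ^ c := by
            rw [← mul_pow]
            congr 1
            rw [hq, ← Real.rpow_mul (by norm_num), ← Real.rpow_add (by norm_num)]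
            congr 1
            ring
          rw [z1, z2, z3]
          ring
  have hfin := limM χ K hK a ha μ hα hα1 (wf_int u₀ u₁ t ht0 ht2) p ((C4 * G) ^ (1 / p) * A) q
    (by linarith) (by positivity) hq0.le hq1 Y hc
  simp only [wave_mul]
  rw [← hY]
  refine hfin.trans (le_of_eq ?_)
  congr 2
  rw [Real.div_rpow (by positivity) h1q.le, Real.mul_rpow (by positivity) hA,
    ← Real.rpow_mul (by positivity), one_div_mul_cancel hp0.ne', Real.rpow_one]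
  ring

end Pool.Agent.Run7.h88.LS
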