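import Pool.Agent.Run7.h88.LS.ShlA

/-!
# Random multipliers and the wave equation (MP_ee74d2_an), part 4: the limit
-/

set_option autoImplicit false

namespace Pool.Agent.Run7.h88.LS

open MeasureTheory Pool.Agent.N303.LS Pool.Agent.N262.LS
open scoped ENNReal FourierTransform RealInnerProductSpace SchwartzMap ComplexConjugate

section

variable {d : ℕ}

/-- the integrand of the wave -/
noncomputable def wf (u₀ u₁ : 𝓢(E d, ℂ)) (t : ℝ) (ξ : E d) : ℂ :=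
  cs t ξ * 𝓕 (u₀ : E d → ℂ) ξ + sn t ξ * 𝓕 (u₁ : E d → ℂ) ξ

lemma wf_int (u₀ u₁ : 𝓢(E d, ℂ)) (t : ℝ) (ht0 : 0 ≤ t) (ht2 : t ≤ 2) :
    Integrable (wf u₀ u₁ t) := wint t ht0 ht2 _ _ (four_int u₀) (four_int u₁)

lemma wave_mul (b : E d → ℂ) (u₀ u₁ : 𝓢(E d, ℂ)) (t : ℝ) (x : E d) :
    wave (fun ξ => b ξ * 𝓕 (u₀ : E d → ℂ) ξ) (fun ξ => b ξ * 𝓕 (u₁ : E d → ℂ) ξ) t x =
      inv (fun ξ => b ξ * wf u₀ u₁ t ξ) x := by
  unfold wave wf
  congr 1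
  funext ξ
  ring

/-- the sum of the first shells -/
lemma sum_shells (K : 𝓢(E d, ℂ)) {F : E d → ℂ} (hF : Integrable F) (b : (Fin d → ℤ) → ℂ)
    (N : ℕ) (x : E d) :
    ∑ c ∈ Finset.range N, inv (fun ξ => psia K (cl Set.univ c) b ξ * F ξ) x =
      inv (fun ξ => psia K (sh d N) b ξ * F ξ) x := by
  rw [← inv_sum _ _ fun c _ => psia_int K _ _ _ hF]
  congr 1
  funext ξ
  rw [← Finset.sum_mul]
  congr 1
  unfold psia
  exact sum_sh N fun m => b m * 𝓕 (K : E d → ℂ) (ξ - pt m)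

lemma lim_shells (χ K : 𝓢(E d, ℂ)) (hK : ∀ ξ, 𝓕 (K : E d → ℂ) ξ = χ ξ) (a : ℕ)
    (ha : ∀ ξ, χ ξ ≠ 0 → ∀ i, |ξ i| ≤ 2 ^ a) {F : E d → ℂ} (hF : Integrable F)
    (b : (Fin d → ℤ) → ℂ) (hb : ∀ m, ‖b m‖ ≤ 1) (x : E d) :
    Filter.Tendsto (fun N => inv (fun ξ => psia K (sh d N) b ξ * F ξ) x) Filter.atTop
      (nhds (inv (fun ξ => mlt χ b ξ * F ξ) x)) := by
  obtain ⟨B, hB, hov⟩ := overlap χ a ha
  have hbd : ∀ N ξ, ‖psia K (sh d N) b ξ‖ ≤ B := by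
    intro N ξ
    unfold psia
    refine (norm_sum_le _ _).trans ((Finset.sum_le_sum fun m _ => ?_).trans (hov ξ (sh d N)))
    rw [norm_mul, hK]
    exact mul_le_of_le_one_left (norm_nonneg _) (hb m)
  have hev : ∀ ξ, ∀ᶠ N in Filter.atTop, psia K (sh d N) b ξ = mlt χ b ξ := by
    intro ξ
    filter_upwards [Filter.eventually_gt_atTop ((nb a ξ).sup fun m => Nat.size (nm m))] with N hN
    have hsub : nb a ξ ⊆ sh d N := by
      intro m hm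
      rw [mem_sh]
      exact (Finset.le_sup (f := fun m => Nat.size (nm m)) hm).trans_lt hN
    rw [mlt_eq χ a ha b ξ (sh d N) hsub]
    unfold psia
    exact Finset.sum_congr rfl fun m _ => by rw [hK]
  unfold inv
  refine tendsto_integral_of_dominated_convergence (fun ξ => B * ‖F ξ‖) ?_ ?_ ?_ ?_
  · intro N
    refine AEStronglyMeasurable.mul ?_ (psia_int K (sh d N) b _ hF).1
    refine Continuous.aestronglyMeasurable ?_
    fun_prop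
  · exact hF.norm.const_mul B
  · intro N
    refine Filter.Eventually.of_forall fun ξ => ?_
    rw [norm_mul, Complex.norm_exp_ofReal_mul_I, one_mul, norm_mul]
    exact mul_le_mul_of_nonneg_right (hbd N ξ) (norm_nonneg _)
  · refine Filter.Eventually.of_forall fun ξ => ?_
    refine tendsto_const_nhds.congr' ?_
    filter_upwards [hev ξ] with N hN
    rw [hN]

/-- Fatou's lemma -/
lemma fatouM {Ω : Type} [MeasurableSpace Ω] (μ : Measure Ω) (p : ℝ)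
    (f : ℕ → Ω × E d → ℂ) (hf : ∀ N, Measurable (f N)) (g : Ω → E d → ℂ)
    (hg : ∀ ω x, Filter.Tendsto (fun N => f N (ω, x)) Filter.atTop (nhds (g ω x))) (B : ℝ≥0∞)
    (hB : ∀ N, ∫⁻ ω, (∫⁻ x : E d, ‖f N (ω, x)‖ₑ ^ p) ∂μ ≤ B) :
    ∫⁻ ω, (∫⁻ x : E d, ‖g ω x‖ₑ ^ p) ∂μ ≤ B := by
  have hmz : ∀ N, Measurable fun z : Ω × E d => ‖f N z‖ₑ ^ p := fun N => (hf N).enorm.pow_const p
  have hmx : ∀ N ω, Measurable fun x => ‖f N (ω, x)‖ₑ ^ p :=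
    fun N ω => (hmz N).comp measurable_prodMk_left
  have hmo : ∀ N, Measurable fun ω => ∫⁻ x : E d, ‖f N (ω, x)‖ₑ ^ p :=
    fun N => (hmz N).lintegral_prod_right'
  have hpt : ∀ ω x, ‖g ω x‖ₑ ^ p =
      Filter.liminf (fun N => ‖f N (ω, x)‖ₑ ^ p) Filter.atTop := by
    intro ω x
    have h1 := ((continuous_enorm.tendsto _).comp (hg ω x))
    have h2 := (ENNReal.continuous_rpow_const (y := p)).tendsto (‖g ω x‖ₑ)
    exact ((h2.comp h1).liminf_eq).symm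
  calc ∫⁻ ω, (∫⁻ x : E d, ‖g ω x‖ₑ ^ p) ∂μ
      ≤ ∫⁻ ω, Filter.liminf (fun N => ∫⁻ x : E d, ‖f N (ω, x)‖ₑ ^ p) Filter.atTop ∂μ := by
        refine lintegral_mono fun ω => ?_
        simp only [hpt]
        exact lintegral_liminf_le (hmx · ω)
    _ ≤ Filter.liminf (fun N => ∫⁻ ω, (∫⁻ x : E d, ‖f N (ω, x)‖ₑ ^ p) ∂μ) Filter.atTop :=
        lintegral_liminf_le hmo
    _ ≤ B := by
        refine (Filter.liminf_le_liminf (Filter.Eventually.of_forall hB)).trans ?_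
        rw [Filter.liminf_const]

/-- from the shells to the multiplier -/
lemma limM (χ K : 𝓢(E d, ℂ)) (hK : ∀ ξ, 𝓕 (K : E d → ℂ) ξ = χ ξ) (a : ℕ)
    (ha : ∀ ξ, χ ξ ≠ 0 → ∀ i, |ξ i| ≤ 2 ^ a) {Ω : Type} [MeasurableSpace Ω] (μ : Measure Ω)
    [SFinite μ] {α : Ω → (Fin d → ℤ) → ℂ} (hα : ∀ m, Measurable fun ω => α ω m)
    (hα1 : ∀ ω m, ‖α ω m‖ ≤ 1) {F : E d → ℂ} (hF : Integrable F) (p Q q : ℝ) (hp : 1 ≤ p)
    (hQ : 0 ≤ Q) (hq0 : 0 ≤ q) (hq1 : q < 1) (B : ℝ≥0∞)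
    (h : ∀ c, ∫⁻ ω, (∫⁻ x : E d,
      ‖inv (fun ξ => psia K (cl Set.univ c) (α ω) ξ * F ξ) x‖ₑ ^ p) ∂μ ≤
        ENNReal.ofReal (Q ^ p * (q ^ p) ^ c) * B) :
    ∫⁻ ω, (∫⁻ x : E d, ‖inv (fun ξ => mlt χ (α ω) ξ * F ξ) x‖ₑ ^ p) ∂μ ≤
      ENNReal.ofReal ((Q / (1 - q)) ^ p) * B := by
  have hwm := fun c => inv_psia_meas K hF (cl Set.univ c) hα
  have hsm : ∀ N, Measurable fun z : Ω × E d =>
      inv (fun ξ => psia K (sh d N) (α z.1) ξ * F ξ) z.2 := fun N =>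
    inv_psia_meas K hF (sh d N) hα
  refine fatouM μ p (fun N z => inv (fun ξ => psia K (sh d N) (α z.1) ξ * F ξ) z.2) hsm
    (fun ω x => inv (fun ξ => mlt χ (α ω) ξ * F ξ) x)
    (fun ω x => lim_shells χ K hK a ha hF (α ω) (hα1 ω) x) _ fun N => ?_
  have h2 := geoM (μ.prod volume) p hp
    (fun c z => inv (fun ξ => psia K (cl Set.univ c) (α z.1) ξ * F ξ) z.2) hwm Q q hQ hq0 hq1 B
    (fun c => by
      rw [lintegral_prod _ ((hwm c).enorm.pow_const p).aemeasurable]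
      exact h c) N
  have h3 : ∀ z : Ω × E d, ∑ c ∈ Finset.range N,
      inv (fun ξ => psia K (cl Set.univ c) (α z.1) ξ * F ξ) z.2 =
      inv (fun ξ => psia K (sh d N) (α z.1) ξ * F ξ) z.2 := fun z =>
    sum_shells K hF (α z.1) N z.2
  simp only [h3] at h2
  rwa [lintegral_prod _ ((hsm N).enorm.pow_const p).aemeasurable] at h2

end

end Pool.Agent.Run7.h88.LS
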