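import Pool.Agent.N170.LS.LLG

/-!
# Random multipliers and the wave equation (MP_ee74d2_an), part 1: the averaged local estimate

The proof of `Pool.Agent.N170.LS.t_llg` for a measurable family of multipliers.
-/

set_option autoImplicit false

namespace Pool.Agent.Run7.h88.LS

open MeasureTheory Pool.Agent.N303.LS Pool.Agent.N492.LS Pool.Agent.N262.LS Pool.Agent.N170.LS
open scoped ENNReal FourierTransform RealInnerProductSpace SchwartzMap ComplexConjugate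

section

variable {d : ℕ} {Ω : Type} [MeasurableSpace Ω] (μ : Measure Ω) [SFinite μ]

/-- the averaged condition of Rudin: for all coefficients `c`,
`∫_Ω ∫_{[0,1)^d} |∑_{m ∈ S} α_m c_m e(m·x)|^p ≤ Λ^p (∑ |c_m|²)^(p/2)` -/
def LamM (p Λ : ℝ) (S : Finset (Fin d → ℤ)) (α : Ω → (Fin d → ℤ) → ℂ) : Prop :=
  ∀ c : (Fin d → ℤ) → ℂ,
    ∫⁻ ω, (∫⁻ x in Q (0 : E d), ‖tp S (fun m => α ω m * c m) x‖ₑ ^ p) ∂μ ≤
      ENNReal.ofReal (Λ ^ p) * (∑ m ∈ S, ‖c m‖ₑ ^ (2 : ℝ)) ^ (p / 2)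

variable {μ}

theorem tp_meas (S : Finset (Fin d → ℤ)) {α : Ω → (Fin d → ℤ) → ℂ}
    (hα : ∀ m, Measurable fun ω => α ω m) (c : (Fin d → ℤ) → ℂ) :
    Measurable fun z : Ω × E d => tp S (fun m => α z.1 m * c m) z.2 := by
  unfold tp
  exact Finset.measurable_fun_sum _ fun m _ =>
    (((hα m).comp measurable_fst).mul measurable_const).mul
      ((cont_ch m).measurable.comp measurable_snd)

omit [SFinite μ] in
theorem lamM_Q {p Λ : ℝ} {S : Finset (Fin d → ℤ)} {α : Ω → (Fin d → ℤ) → ℂ}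
    (hL : LamM μ p Λ S α) (b : (Fin d → ℤ) → ℂ) (w : E d) :
    ∫⁻ ω, (∫⁻ x in Q w, ‖tp S (fun m => α ω m * b m) x‖ₑ ^ p) ∂μ ≤
      ENNReal.ofReal (Λ ^ p) * (∑ m ∈ S, ‖b m‖ₑ ^ (2 : ℝ)) ^ (p / 2) := by
  have h := hL fun m => b m * e ⟪w, pt m⟫
  have h1 : ∀ m, ‖b m * e ⟪w, pt m⟫‖ₑ = ‖b m‖ₑ := fun m => by rw [enorm_mul, enorm_e, mul_one]
  simp only [h1] at h
  refine le_trans (le_of_eq ?_) h
  refine lintegral_congr fun ω => ?_
  rw [trans_Q]
  refine lintegral_congr fun y => ?_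
  congr 2
  unfold tp
  refine Finset.sum_congr rfl fun m _ => ?_
  show α ω m * b m * e ⟪y + w, pt m⟫ = α ω m * (b m * e ⟪w, pt m⟫) * e ⟪y, pt m⟫
  rw [inner_add_left, e_add]
  ring

theorem lamM_cu {p Λ : ℝ} {S : Finset (Fin d → ℤ)} {α : Ω → (Fin d → ℤ) → ℂ}
    (hα : ∀ m, Measurable fun ω => α ω m)
    (hL : LamM μ p Λ S α) (b : (Fin d → ℤ) → ℂ) (z : E d) :
    ∫⁻ ω, (∫⁻ x in cu 1 z, ‖tp S (fun m => α ω m * b m) x‖ₑ ^ p) ∂μ ≤
      (3 : ℝ≥0∞) ^ d * (ENNReal.ofReal (Λ ^ p) * (∑ m ∈ S, ‖b m‖ₑ ^ (2 : ℝ)) ^ (p / 2)) := by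
  have hm : ∀ w : E d, Measurable fun ω => ∫⁻ x in Q w, ‖tp S (fun m => α ω m * b m) x‖ₑ ^ p :=
    fun w => ((tp_meas S hα b).enorm.pow_const p).lintegral_prod_right'
  calc ∫⁻ ω, (∫⁻ x in cu 1 z, ‖tp S (fun m => α ω m * b m) x‖ₑ ^ p) ∂μ
      ≤ ∫⁻ ω, (∑ k : Fin d → Fin 3, ∫⁻ x in Q (cor z k),
          ‖tp S (fun m => α ω m * b m) x‖ₑ ^ p) ∂μ := by
        refine lintegral_mono fun ω => ?_
        refine (lintegral_mono_set (cover z)).trans ?_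
        refine (lintegral_iUnion_le _ _).trans ?_
        rw [tsum_fintype]
    _ = ∑ k : Fin d → Fin 3, ∫⁻ ω, (∫⁻ x in Q (cor z k),
          ‖tp S (fun m => α ω m * b m) x‖ₑ ^ p) ∂μ := lintegral_finsetSum _ fun k _ => hm _
    _ ≤ _ := by
        refine (Finset.sum_le_sum fun k _ => lamM_Q hL b (cor z k)).trans (le_of_eq ?_)
        rw [Finset.sum_const, Finset.card_univ, nsmul_eq_mul]
        simp

theorem tpwM_meas {H : E d → ℂ} (hH : Integrable H) (A : Finset (Fin d → ℤ))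
    {α : Ω → (Fin d → ℤ) → ℂ} (hα : ∀ m, Measurable fun ω => α ω m) :
    Measurable fun z : (Ω × E d) × E d => tp A (fun m => α z.1.1 m * bw H (z.1.2 + pt m)) z.2 := by
  unfold tp
  exact Finset.measurable_fun_sum _ fun m _ =>
    (((hα m).comp (measurable_fst.comp measurable_fst)).mul
      (((cont_bw hH).measurable).comp
        ((measurable_snd.comp measurable_fst).add measurable_const))).mul
      ((cont_ch m).measurable.comp measurable_snd)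

/-- the averaged estimate for one kernel -/
theorem oneM (k : 𝓢(E d, ℂ)) {H : E d → ℂ} (hH : Integrable H) (z : E d)
    (A : Finset (Fin d → ℤ)) {α : Ω → (Fin d → ℤ) → ℂ} (hα : ∀ m, Measurable fun ω => α ω m)
    {p Λ : ℝ} (hp : 2 ≤ p) (hL : LamM μ p Λ A α)
    {N : ℝ≥0∞} (hN : ∀ ξ : E d, ∑ m ∈ A, ‖bw H (ξ + pt m)‖ₑ ^ (2 : ℝ) ≤ N) :
    ∫⁻ ω, (∫⁻ x in cu 1 z, ‖op k A (α ω) H x‖ₑ ^ p) ∂μ ≤
      (∫⁻ ξ : E d, ‖𝓕 (k : E d → ℂ) ξ‖ₑ) ^ (p - 1) * (∫⁻ ξ : E d, ‖𝓕 (k : E d → ℂ) ξ‖ₑ) *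
        (3 ^ d * (ENNReal.ofReal (Λ ^ p) * N ^ (p / 2))) := by
  have hc : (∫⁻ ξ : E d, ‖𝓕 (k : E d → ℂ) ξ‖ₑ) ^ (p - 1) ≠ ⊤ :=
    ENNReal.rpow_ne_top_of_nonneg (by linarith) (fK_top k)
  have h1 : ∀ ω, ∫⁻ x in cu 1 z, ‖op k A (α ω) H x‖ₑ ^ p ≤
      (∫⁻ ξ : E d, ‖𝓕 (k : E d → ℂ) ξ‖ₑ) ^ (p - 1) * ∫⁻ ξ : E d, ‖𝓕 (k : E d → ℂ) ξ‖ₑ *
        ∫⁻ x in cu 1 z, ‖tp A (fun m => α ω m * bw H (ξ + pt m)) x‖ₑ ^ p := by
    intro ω
    refine (setLIntegral_mono' (cu_meas 1 z) fun x _ =>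
      pww k hH x A (α ω) (p := p) (by linarith)).trans ?_
    rw [lintegral_const_mul' _ _ hc]
    refine mul_le_mul' le_rfl ?_
    rw [lintegral_lintegral_swap]
    · refine lintegral_mono fun ξ => ?_
      rw [lintegral_const_mul' _ _ enorm_ne_top]
    · refine Measurable.aemeasurable ?_
      exact ((fK_meas k).comp measurable_snd).mul
        ((tpw_cont hH A (α ω)).measurable.enorm.pow_const _)
  refine (lintegral_mono h1).trans ?_
  rw [lintegral_const_mul' _ _ hc, mul_assoc]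
  refine mul_le_mul' le_rfl ?_
  have hm1 : Measurable fun q : Ω × E d =>
      ∫⁻ x in cu 1 z, ‖tp A (fun m => α q.1 m * bw H (q.2 + pt m)) x‖ₑ ^ p :=
    ((tpwM_meas hH A hα).enorm.pow_const p).lintegral_prod_right'
  rw [lintegral_lintegral_swap]
  · rw [← lintegral_mul_const _ (fK_meas k)]
    refine lintegral_mono fun ξ => ?_
    rw [lintegral_const_mul' _ _ enorm_ne_top]
    gcongr
    refine (lamM_cu hα hL (fun m => bw H (ξ + pt m)) z).trans ?_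
    gcongr
    exact hN ξ
  · refine Measurable.aemeasurable ?_
    exact ((fK_meas k).comp measurable_snd).mul hm1

theorem opM_meas (k : 𝓢(E d, ℂ)) {H : E d → ℂ} (hH : Integrable H) (A : Finset (Fin d → ℤ))
    {α : Ω → (Fin d → ℤ) → ℂ} (hα : ∀ m, Measurable fun ω => α ω m) :
    Measurable fun z : Ω × E d => op k A (α z.1) H z.2 := by
  have h0 : Measurable fun z : (Ω × E d) × E d => tp A (fun m => α z.1.1 m * bw H (z.2 + pt m)) z.1.2 := by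
    unfold tp
    exact Finset.measurable_fun_sum _ fun m _ =>
      (((hα m).comp (measurable_fst.comp measurable_fst)).mul
        (((cont_bw hH).measurable).comp (measurable_snd.add measurable_const))).mul
        ((cont_ch m).measurable.comp (measurable_snd.comp measurable_fst))
  have hc : Measurable fun z : (Ω × E d) × E d => 𝓕 (k : E d → ℂ) z.2 *
      (e ⟪z.1.2, z.2⟫ * tp A (fun m => α z.1.1 m * bw H (z.2 + pt m)) z.1.2) :=
    ((cont_fK k).measurable.comp measurable_snd).mul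
      ((cont_e.measurable.comp ((measurable_snd.comp measurable_fst).inner measurable_snd)).mul h0)
  exact (hc.stronglyMeasurable.integral_prod_right (ν := volume)).measurable

end

/-- the averaged local estimate -/
theorem llgM (h1 : S_PD) (h2 : S_BW) (d M : ℕ) (p : ℝ) (hp : 2 ≤ p) (K : 𝓢(E d, ℂ)) :
    ∃ C : ℝ, 0 < C ∧ ∀ (Ω : Type) [MeasurableSpace Ω] (μ : Measure Ω) [SFinite μ]
      (S : Finset (Fin d → ℤ)) (α : Ω → (Fin d → ℤ) → ℂ) (_ : ∀ m, Measurable fun ω => α ω m)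
      (Λ : ℝ), 0 ≤ Λ → LamM μ p Λ S α → ∀ F : E d → ℂ, Integrable F → ∀ z : E d,
      ∫⁻ ω, (∫⁻ x in cu 1 z, ‖inv (fun ξ => psia K S (α ω) ξ * F ξ) x‖ₑ ^ p) ∂μ ≤
        ENNReal.ofReal (C * Λ ^ p) * nrg M (inv F) z ^ (p / 2) := by
  have hp0 : 0 < p := by linarith
  obtain ⟨B, C, hC, hB, hbw⟩ := h2 d M
  obtain ⟨n, P, k, hPc, hP⟩ := h1 d B K
  have hD : ∀ i, ∃ D : ℝ, ∀ y ∈ cu 1 (0 : E d), ‖P i y‖ ≤ D := fun i =>
    (cu_compact 1 (0 : E d)).exists_bound_of_continuousOn (hPc i).continuousOn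
  choose D hD using hD
  obtain ⟨κ, hκ⟩ : ∃ κ : Fin n → ℝ≥0∞, κ = fun i => ∫⁻ ξ : E d, ‖𝓕 (k i : E d → ℂ) ξ‖ₑ := ⟨_, rfl⟩
  have hκt : ∀ i, κ i ≠ ⊤ := fun i => by rw [hκ]; exact fK_top (k i)
  obtain ⟨C', hC'⟩ : ∃ C' : ℝ≥0∞, C' = (n : ℝ≥0∞) ^ (p - 1) * ∑ i : Fin n,
    ENNReal.ofReal (D i) ^ p * (κ i ^ (p - 1) * κ i * 3 ^ d * ENNReal.ofReal C ^ (p / 2)) :=
    ⟨_, rfl⟩
  have hC't : C' ≠ ⊤ := by
    rw [hC']
    refine ENNReal.mul_ne_top (ENNReal.rpow_ne_top_of_nonneg (by linarith) (by simp)) ?_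
    refine ENNReal.sum_ne_top.2 fun i _ => ?_
    refine ENNReal.mul_ne_top (ENNReal.rpow_ne_top_of_nonneg (by linarith) ENNReal.ofReal_ne_top) ?_
    refine ENNReal.mul_ne_top (ENNReal.mul_ne_top (ENNReal.mul_ne_top
      (ENNReal.rpow_ne_top_of_nonneg (by linarith) (hκt i)) (hκt i)) (by finiteness))
      (ENNReal.rpow_ne_top_of_nonneg (by linarith) ENNReal.ofReal_ne_top)
  refine ⟨C'.toReal + 1, by positivity, ?_⟩
  intro Ω _ μ _ S α hα Λ hΛ hL F hF z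
  have hcF := cont_inv hF
  have hbF : ∀ x, ‖inv F x‖ ≤ ∫ ξ, ‖F ξ‖ := by
    intro x
    rw [inv_eq]
    refine (norm_integral_le_integral_norm _).trans (le_of_eq ?_)
    refine integral_congr_ae (Filter.Eventually.of_forall fun y => ?_)
    show ‖e ⟪x, y⟫ * F y‖ = ‖F y‖
    rw [norm_mul, norm_e, one_mul]
  have hH : Integrable fun u => inv F u * wB B z u :=
    int_bdd (c := ∫ ξ, ‖F ξ‖) (wB_int hB z) hcF.aestronglyMeasurable hbF
  have hN : ∀ ξ : E d, ∑ m ∈ S, ‖bw (fun u => inv F u * wB B z u) (ξ + pt m)‖ₑ ^ (2 : ℝ) ≤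
      ENNReal.ofReal C * nrg M (inv F) z := by
    intro ξ
    refine le_trans (le_of_eq ?_) (hbw (inv F) hcF ⟨_, hbF⟩ z ξ S)
    refine Finset.sum_congr rfl fun m _ => ?_
    congr 2
    unfold bw
    refine integral_congr_ae (Filter.Eventually.of_forall fun u => ?_)
    show inv F u * wB B z u * conj (e ⟪u, ξ + pt m⟫) = _
    rw [conj_e]
    unfold wB e
    rw [show 2 * Real.pi * -⟪u, ξ + pt m⟫ = -(2 * Real.pi * ⟪u, ξ + pt m⟫) by ring]
  obtain ⟨H, hHd⟩ : ∃ H : E d → ℂ, H = fun u => inv F u * wB B z u := ⟨_, rfl⟩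
  rw [← hHd] at hH hN
  have h3 : ∀ ω, ∀ x ∈ cu 1 z, ‖inv (fun ξ => psia K S (α ω) ξ * F ξ) x‖ₑ ^ p ≤
      (n : ℝ≥0∞) ^ (p - 1) * ∑ i : Fin n, ENNReal.ofReal (D i) ^ p *
        ‖op (k i) S (α ω) H x‖ₑ ^ p := by
    intro ω x hx
    have h4 := formP K hF x z S (α ω) P k hP (by rw [← hHd]; exact hH)
    rw [← hHd] at h4
    rw [h4]
    have hxz : x - z ∈ cu 1 (0 : E d) := by
      intro j
      have := hx j
      simpa using this
    calc ‖∑ i, P i (x - z) * op (k i) S (α ω) H x‖ₑ ^ p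
        ≤ (∑ i, ENNReal.ofReal (D i) * ‖op (k i) S (α ω) H x‖ₑ) ^ p := by
          refine ENNReal.rpow_le_rpow ?_ hp0.le
          refine (enorm_sum_le _ _).trans (Finset.sum_le_sum fun i _ => ?_)
          rw [enorm_mul]
          refine mul_le_mul' ?_ le_rfl
          rw [← ofReal_norm]
          exact ENNReal.ofReal_le_ofReal (hD i _ hxz)
      _ ≤ ((Finset.univ : Finset (Fin n)).card : ℝ≥0∞) ^ (p - 1) *
          ∑ i, (ENNReal.ofReal (D i) * ‖op (k i) S (α ω) H x‖ₑ) ^ p :=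
          ENNReal.rpow_sum_le_const_mul_sum_rpow _ _ (by linarith)
      _ = _ := by
          rw [Finset.card_univ, Fintype.card_fin]
          congr 1
          refine Finset.sum_congr rfl fun i _ => ?_
          rw [ENNReal.mul_rpow_of_nonneg _ _ hp0.le]
  have h4 : ∀ ω, ∫⁻ x in cu 1 z, ‖inv (fun ξ => psia K S (α ω) ξ * F ξ) x‖ₑ ^ p ≤
      (n : ℝ≥0∞) ^ (p - 1) * ∑ i : Fin n, ENNReal.ofReal (D i) ^ p *
        ∫⁻ x in cu 1 z, ‖op (k i) S (α ω) H x‖ₑ ^ p := by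
    intro ω
    refine (setLIntegral_mono' (cu_meas 1 z) (h3 ω)).trans ?_
    rw [lintegral_const_mul' _ _ (ENNReal.rpow_ne_top_of_nonneg (by linarith) (by simp)),
      lintegral_finsetSum _ fun i _ => ((op_meas (k i) hH S (α ω)).enorm.pow_const p).const_mul _]
    refine mul_le_mul' le_rfl (Finset.sum_le_sum fun i _ => ?_)
    rw [lintegral_const_mul' _ _ (ENNReal.rpow_ne_top_of_nonneg (by linarith) ENNReal.ofReal_ne_top)]
  have h5 : ∫⁻ ω, (∫⁻ x in cu 1 z, ‖inv (fun ξ => psia K S (α ω) ξ * F ξ) x‖ₑ ^ p) ∂μ ≤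
      (n : ℝ≥0∞) ^ (p - 1) * ∑ i : Fin n, ENNReal.ofReal (D i) ^ p *
        (κ i ^ (p - 1) * κ i * (3 ^ d * (ENNReal.ofReal (Λ ^ p) *
          (ENNReal.ofReal C * nrg M (inv F) z) ^ (p / 2)))) := by
    refine (lintegral_mono h4).trans ?_
    have hm : ∀ i, Measurable fun ω => ∫⁻ x in cu 1 z, ‖op (k i) S (α ω) H x‖ₑ ^ p := fun i =>
      ((opM_meas (k i) hH S hα).enorm.pow_const p).lintegral_prod_right'
    rw [lintegral_const_mul' _ _ (ENNReal.rpow_ne_top_of_nonneg (by linarith) (by simp)),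
      lintegral_finsetSum _ fun i _ => (hm i).const_mul _]
    refine mul_le_mul' le_rfl (Finset.sum_le_sum fun i _ => ?_)
    rw [lintegral_const_mul' _ _ (ENNReal.rpow_ne_top_of_nonneg (by linarith) ENNReal.ofReal_ne_top)]
    refine mul_le_mul' le_rfl ?_
    rw [hκ]
    exact oneM (k i) hH z S hα hp hL hN
  refine h5.trans ?_
  have h6 : (n : ℝ≥0∞) ^ (p - 1) * ∑ i : Fin n, ENNReal.ofReal (D i) ^ p *
        (κ i ^ (p - 1) * κ i * (3 ^ d * (ENNReal.ofReal (Λ ^ p) *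
          (ENNReal.ofReal C * nrg M (inv F) z) ^ (p / 2)))) =
      C' * ENNReal.ofReal (Λ ^ p) * nrg M (inv F) z ^ (p / 2) := by
    rw [hC', ENNReal.mul_rpow_of_nonneg _ _ (by linarith), mul_assoc, mul_assoc, Finset.sum_mul]
    congr 1
    refine Finset.sum_congr rfl fun i _ => ?_
    ring
  rw [h6]
  have h7 : C' ≤ ENNReal.ofReal (C'.toReal + 1) := by
    calc C' = ENNReal.ofReal C'.toReal := (ENNReal.ofReal_toReal hC't).symm
      _ ≤ _ := ENNReal.ofReal_le_ofReal (by linarith)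
  rw [ENNReal.ofReal_mul (by positivity)]
  gcongr

end Pool.Agent.Run7.h88.LS
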