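import Pool.Agent.Run7.h88.LS.Rep

/-!
# Random multipliers and the wave equation (MP_ee74d2_an), part 8: a partition with few cells
-/

set_option autoImplicit false

namespace Pool.Agent.Run7.h88.LS

open Pool.Agent.N303.LS

section

variable {d : ℕ}

/-- the coordinates, extended by zero -/
def cx (m : Fin d → ℤ) (n : ℕ) : ℤ := if h : n < d then m ⟨n, h⟩ else 0

lemma cx_add (m n : Fin d → ℤ) (j : ℕ) : cx (m + n) j = cx m j + cx n j := by
  unfold cx
  split_ifs <;> simp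

/-- the cell of a lattice point -/
def cel (Q : ℕ → ℕ) (m : Fin d → ℤ) : ℕ × (Fin ((d + 1) / 2) → ℤ) :=
  (Nat.size (nm m), fun j =>
    (cx m (2 * j + 1) - cx m (2 * j) ^ 2) % ((Q (Nat.size (nm m)) : ℕ) : ℤ))

/-- a quadratic equation has at most two roots modulo a prime -/
lemma roots (q : ℕ) [Fact q.Prime] (s c : ZMod q) :
    ((Finset.univ : Finset (ZMod q)).filter fun a => a ^ 2 + (s - a) ^ 2 = c).card ≤ 2 := by
  rcases (Fact.out : q.Prime).eq_two_or_odd' with h2 | hodd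
  · refine (Finset.card_le_univ _).trans ?_
    rw [ZMod.card, h2]
  · by_cases hne : ∃ a : ZMod q, a ^ 2 + (s - a) ^ 2 = c
    · obtain ⟨a, ha⟩ := hne
      have hsub : ((Finset.univ : Finset (ZMod q)).filter fun a => a ^ 2 + (s - a) ^ 2 = c) ⊆
          {a, s - a} := by
        intro b hb
        have hb' : b ^ 2 + (s - b) ^ 2 = c := (Finset.mem_filter.1 hb).2
        have h1 : (2 : ZMod q) * ((b - a) * (b - (s - a))) = 0 := by
          linear_combination hb' - ha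
        have h2 : (2 : ZMod q) ≠ 0 := by
          intro h
          have h3 : ((2 : ℕ) : ZMod q) = 0 := by exact_mod_cast h
          rw [ZMod.natCast_eq_zero_iff] at h3
          have h4 := Nat.le_of_dvd (by norm_num) h3
          have h5 := (Fact.out : q.Prime).two_le
          obtain ⟨r, hr⟩ := hodd
          omega
        have h3 := (mul_eq_zero.1 h1).resolve_left h2
        rw [Finset.mem_insert, Finset.mem_singleton]
        rcases mul_eq_zero.1 h3 with h | h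
        · exact Or.inl (sub_eq_zero.1 h)
        · exact Or.inr (sub_eq_zero.1 h)
      exact (Finset.card_le_card hsub).trans Finset.card_le_two
    · have : ((Finset.univ : Finset (ZMod q)).filter fun a => a ^ 2 + (s - a) ^ 2 = c) = ∅ := by
        rw [Finset.filter_eq_empty_iff]
        intro a _ ha
        exact hne ⟨a, ha⟩
      rw [this]
      simp

/-- a residue and a quotient determine an integer -/
lemma det (q : ℕ) (x y z : ℤ) (h : (x : ZMod q) = (y : ZMod q))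
    (hz : (x + z) / (q : ℤ) = (y + z) / (q : ℤ)) : x = y := by
  have h1 : x ≡ y [ZMOD q] := (ZMod.intCast_eq_intCast_iff x y q).1 h
  have h2 : (x + z) % (q : ℤ) = (y + z) % (q : ℤ) := h1.add_right z
  have h3 := Int.emod_add_mul_ediv (x + z) q
  have h4 := Int.emod_add_mul_ediv (y + z) q
  rw [h2, hz, h4] at h3
  linarith

/-- the number of representations in a cell -/
lemma rep_count (Q : ℕ → ℕ) (hQ : ∀ k, (Q k).Prime) (k : ℕ)
    (l : Fin ((d + 1) / 2) → ℤ) (T : Finset (Fin d → ℤ)) (hT : ∀ m ∈ T, cel Q m = (k, l))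
    (v : Fin d → ℤ) :
    (prs T v).card ≤ 2 ^ ((d + 1) / 2) * (2 ^ (k + 1) / Q k + 1) ^ d := by
  classical
  have : Fact (Q k).Prime := ⟨hQ k⟩
  obtain ⟨q, hq⟩ : ∃ q, q = Q k := ⟨_, rfl⟩
  rw [← hq]
  have : Fact q.Prime := ⟨hq ▸ hQ k⟩
  have hlab : ∀ m ∈ T, ∀ j : Fin ((d + 1) / 2),
      (cx m (2 * j + 1) : ZMod q) = (cx m (2 * j) : ZMod q) ^ 2 + (l j : ZMod q) := by
    intro m hm j
    have h1 := hT m hm
    unfold cel at h1
    rw [Prod.mk.injEq] at h1
    have h2 := congrFun h1.2 j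
    rw [h1.1, ← hq] at h2
    have h3 := ZMod.intCast_mod (cx m (2 * j + 1) - cx m (2 * j) ^ 2) q
    rw [h2] at h3
    push_cast at h3
    rw [h3]
    ring
  have hbox : ∀ m ∈ T, ∀ i, |m i| < 2 ^ k := by
    intro m hm i
    have h1 := hT m hm
    unfold cel at h1
    rw [Prod.mk.injEq] at h1
    exact abs_lt_of_size m k h1.1 i
  obtain ⟨Φ, hΦ⟩ : ∃ Φ : (Fin d → ℤ) × (Fin d → ℤ) →
      (Fin ((d + 1) / 2) → ZMod q) × (Fin d → ℕ), Φ = fun z : (Fin d → ℤ) × (Fin d → ℤ) =>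
      (fun j : Fin ((d + 1) / 2) => (cx z.1 (2 * j) : ZMod q), fun i => ((z.1 i + 2 ^ k) / (q : ℤ)).toNat) := ⟨_, rfl⟩
  have hmaps : ∀ z ∈ prs T v, Φ z ∈ (Fintype.piFinset fun j : Fin ((d + 1) / 2) =>
      (Finset.univ : Finset (ZMod q)).filter fun a => a ^ 2 + ((cx v (2 * j) : ZMod q) - a) ^ 2 =
        (cx v (2 * j + 1) : ZMod q) - 2 * (l j : ZMod q)) ×ˢ
      (Fintype.piFinset fun _ : Fin d => Finset.range (2 ^ (k + 1) / q + 1)) := by
    intro z hz
    unfold prs at hz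
    rw [Finset.mem_filter, Finset.mem_product] at hz
    obtain ⟨⟨hz1, hz2⟩, hz3⟩ := hz
    rw [Finset.mem_product, Fintype.mem_piFinset, Fintype.mem_piFinset, hΦ]
    constructor
    · intro j
      simp only
      rw [Finset.mem_filter]
      refine ⟨Finset.mem_univ _, ?_⟩
      have h1 := hlab z.1 hz1 j
      have h2 := hlab z.2 hz2 j
      have h3 : (cx v (2 * j) : ZMod q) = (cx z.1 (2 * j) : ZMod q) + (cx z.2 (2 * j) : ZMod q) := by
        rw [← hz3, cx_add]
        push_cast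
        rfl
      have h4 : (cx v (2 * j + 1) : ZMod q) =
          (cx z.1 (2 * j + 1) : ZMod q) + (cx z.2 (2 * j + 1) : ZMod q) := by
        rw [← hz3, cx_add]
        push_cast
        rfl
      rw [h3, h4, h1, h2]
      ring
    · intro i
      simp only
      rw [Finset.mem_range, Nat.lt_succ_iff]
      have h1 := hbox z.1 hz1 i
      rw [abs_lt] at h1
      have hq0 : (0 : ℤ) < q := by exact_mod_cast (Fact.out : q.Prime).pos
      have h2 : (z.1 i + 2 ^ k) / (q : ℤ) ≤ (2 ^ (k + 1)) / (q : ℤ) := by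
        refine Int.ediv_le_ediv hq0 ?_
        rw [pow_succ]
        linarith
      rw [Int.toNat_le]
      push_cast
      exact h2
  have hinj : Set.InjOn Φ (prs T v : Set ((Fin d → ℤ) × (Fin d → ℤ))) := by
    intro z hz w hw hzw
    rw [Finset.mem_coe] at hz hw
    unfold prs at hz hw
    rw [Finset.mem_filter, Finset.mem_product] at hz hw
    obtain ⟨⟨hz1, hz2⟩, hz3⟩ := hz
    obtain ⟨⟨hw1, hw2⟩, hw3⟩ := hw
    rw [hΦ] at hzw
    simp only [Prod.mk.injEq] at hzw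
    obtain ⟨he, hr⟩ := hzw
    have hq0 : (0 : ℤ) < q := by exact_mod_cast (Fact.out : q.Prime).pos
    have hquo : ∀ i, (z.1 i + 2 ^ k) / (q : ℤ) = (w.1 i + 2 ^ k) / (q : ℤ) := by
      intro i
      have h1 := congrFun hr i
      have h2 := hbox z.1 hz1 i
      have h3 := hbox w.1 hw1 i
      rw [abs_lt] at h2 h3
      have h4 : 0 ≤ (z.1 i + 2 ^ k) / (q : ℤ) := Int.ediv_nonneg (by linarith) hq0.le
      have h5 : 0 ≤ (w.1 i + 2 ^ k) / (q : ℤ) := Int.ediv_nonneg (by linarith) hq0.le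
      rw [← Int.toNat_of_nonneg h4, ← Int.toNat_of_nonneg h5, h1]
    have heven : ∀ j : Fin ((d + 1) / 2), (cx z.1 (2 * j) : ZMod q) = (cx w.1 (2 * j) : ZMod q) :=
      fun j => congrFun he j
    have hres : ∀ i : Fin d, ((z.1 i : ℤ) : ZMod q) = ((w.1 i : ℤ) : ZMod q) := by
      intro i
      obtain ⟨j, hj⟩ : ∃ j : Fin ((d + 1) / 2), (i : ℕ) = 2 * j ∨ (i : ℕ) = 2 * j + 1 := by
        refine ⟨⟨(i : ℕ) / 2, ?_⟩, ?_⟩
        · have := i.2
          omega
        · simp only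
          omega
      rcases hj with hj | hj
      · have h1 := heven j
        unfold cx at h1
        have h2 : 2 * (j : ℕ) < d := by rw [← hj]; exact i.2
        rw [dif_pos h2, dif_pos h2] at h1
        have h3 : (⟨2 * (j : ℕ), h2⟩ : Fin d) = i := Fin.ext hj.symm
        rw [h3] at h1
        exact h1
      · have h1 : (cx z.1 (2 * j + 1) : ZMod q) = (cx w.1 (2 * j + 1) : ZMod q) := by
          rw [hlab z.1 hz1 j, hlab w.1 hw1 j, heven j]
        unfold cx at h1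
        have h2 : 2 * (j : ℕ) + 1 < d := by rw [← hj]; exact i.2
        rw [dif_pos h2, dif_pos h2] at h1
        have h3 : (⟨2 * (j : ℕ) + 1, h2⟩ : Fin d) = i := Fin.ext hj.symm
        rw [h3] at h1
        exact h1
    have h1 : z.1 = w.1 := funext fun i => det q _ _ _ (hres i) (hquo i)
    have h2 : z.2 = w.2 := by
      have h3 : z.1 + z.2 = w.1 + w.2 := by rw [hz3, hw3]
      rw [h1] at h3
      exact add_left_cancel h3
    exact Prod.ext h1 h2
  refine (Finset.card_le_card_of_injOn Φ hmaps hinj).trans ?_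
  rw [Finset.card_product, Fintype.card_piFinset, Fintype.card_piFinset]
  refine Nat.mul_le_mul ?_ ?_
  · calc _ ≤ ∏ _j : Fin ((d + 1) / 2), 2 := Finset.prod_le_prod' fun j _ => roots q _ _
      _ = _ := by rw [Finset.prod_const, Finset.card_univ, Fintype.card_fin]
  · rw [Finset.prod_const, Finset.card_univ, Fintype.card_fin, Finset.card_range]

/-- the primes -/
lemma primes (τ : ℝ) (h0 : 0 ≤ τ) : ∃ Q : ℕ → ℕ, ∀ k, (Q k).Prime ∧
    ((2 : ℝ) ^ k) ^ τ ≤ Q k ∧ (Q k : ℝ) ≤ 4 * ((2 : ℝ) ^ k) ^ τ := by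
  have h : ∀ k : ℕ, ∃ q : ℕ, q.Prime ∧ ((2 : ℝ) ^ k) ^ τ ≤ q ∧ (q : ℝ) ≤ 4 * ((2 : ℝ) ^ k) ^ τ := by
    intro k
    obtain ⟨y, hy⟩ : ∃ y : ℝ, y = ((2 : ℝ) ^ k) ^ τ := ⟨_, rfl⟩
    have hy1 : 1 ≤ y := by
      rw [hy]
      exact Real.one_le_rpow (one_le_pow₀ (by norm_num)) h0
    have hn : ⌈y⌉₊ ≠ 0 := by
      rw [Ne, Nat.ceil_eq_zero]
      linarith
    obtain ⟨q, hq, h1, h2⟩ := Nat.exists_prime_lt_and_le_two_mul ⌈y⌉₊ hn
    refine ⟨q, hq, ?_, ?_⟩
    · rw [← hy]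
      exact (Nat.le_ceil y).trans (by exact_mod_cast h1.le)
    · rw [← hy]
      have h3 : (⌈y⌉₊ : ℝ) < y + 1 := Nat.ceil_lt_add_one (by linarith)
      have h4 : (q : ℝ) ≤ 2 * (⌈y⌉₊ : ℝ) := by exact_mod_cast h2
      linarith
  choose Q hQ using h
  exact ⟨Q, hQ⟩

lemma two_pow_le (m : Fin d → ℤ) (R : ℕ) (hR : 1 ≤ R) (hm : ∀ i, |m i| < R) :
    2 ^ Nat.size (nm m) ≤ 2 * R := by
  have hlt : nm m < R := by
    unfold nm
    rw [Finset.sup_lt_iff (by rw [Nat.bot_eq_zero]; omega)]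
    intro i _
    have := hm i
    rw [Int.abs_eq_natAbs] at this
    exact_mod_cast this
  rcases Nat.eq_zero_or_pos (Nat.size (nm m)) with h | h
  · rw [h, pow_zero]
    omega
  · obtain ⟨k, hk⟩ : ∃ k, Nat.size (nm m) = k + 1 := ⟨_, (Nat.succ_pred_eq_of_pos h).symm⟩
    have h1 : 2 ^ k ≤ nm m := Nat.lt_size.1 (by omega)
    rw [hk, pow_succ]
    omega

/-- the partition -/
theorem partition (hd : 1 ≤ d) (τ : ℝ) (h0 : 0 < τ) (h1 : τ ≤ 1) :
    ∃ (ι : Type) (cell : (Fin d → ℤ) → ι),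
      (∃ B : ℝ, ∀ R : ℕ, 1 ≤ R →
        (Set.ncard (cell '' {m : Fin d → ℤ | ∀ i, |m i| < R}) : ℝ) ≤
          B * (R : ℝ) ^ (τ * (((d + 1) / 2 : ℕ) : ℝ))) ∧
      ∃ A : ℝ, 0 ≤ A ∧ ∀ (i : ι) (R : ℕ), 1 ≤ R → ∀ T : Finset (Fin d → ℤ),
        (∀ m ∈ T, cell m = i ∧ ∀ j, |m j| < R) → ∀ v,
          ((prs T v).card : ℝ) ≤ A * (R : ℝ) ^ ((d : ℝ) * (1 - τ)) := by
  classical
  obtain ⟨Q, hQ⟩ := primes τ h0.le
  obtain ⟨e', he'⟩ : ∃ e' : ℕ, e' = (d + 1) / 2 := ⟨_, rfl⟩
  have he1 : 1 ≤ e' := by omega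
  refine ⟨_, cel Q, ?_, ?_⟩
  · obtain ⟨x, hx⟩ : ∃ x : ℝ, x = (2 : ℝ) ^ (τ * (e' : ℝ)) := ⟨_, rfl⟩
    have hx1 : 1 < x := by
      rw [hx]
      refine Real.one_lt_rpow (by norm_num) ?_
      have : (1 : ℝ) ≤ e' := by exact_mod_cast he1
      positivity
    have hx0 : 0 < x - 1 := by linarith
    have hee : (((d + 1) / 2 : ℕ) : ℝ) = (e' : ℝ) := by rw [he']
    refine ⟨4 ^ e' * (x / (x - 1)) * x, fun R hR => ?_⟩
    rw [hee]
    have hR1 : (1 : ℝ) ≤ R := by exact_mod_cast hR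
    obtain ⟨K, hK⟩ : ∃ K, K = Nat.log 2 (2 * R) := ⟨_, rfl⟩
    have hK2 : 2 ^ K ≤ 2 * R := by
      rw [hK]
      exact Nat.pow_log_le_self 2 (by omega)
    obtain ⟨Fs, hFs⟩ : ∃ Fs : Finset (ℕ × (Fin ((d + 1) / 2) → ℤ)), Fs =
        (Finset.range (K + 1)).biUnion fun k =>
          (Fintype.piFinset fun _ : Fin ((d + 1) / 2) => Finset.Ico (0 : ℤ) (Q k)).image
            fun l => (k, l) := ⟨_, rfl⟩
    have hsub : (cel Q '' {m : Fin d → ℤ | ∀ i, |m i| < R}) ⊆ (Fs : Set _) := by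
      rintro _ ⟨m, hm, rfl⟩
      rw [hFs, Finset.mem_coe, Finset.mem_biUnion]
      refine ⟨Nat.size (nm m), ?_, ?_⟩
      · rw [Finset.mem_range, Nat.lt_succ_iff, hK]
        exact Nat.le_log_of_pow_le (by norm_num) (two_pow_le m R hR hm)
      · rw [Finset.mem_image]
        refine ⟨_, ?_, rfl⟩
        rw [Fintype.mem_piFinset]
        intro j
        rw [Finset.mem_Ico]
        have hpos : (0 : ℤ) < Q (Nat.size (nm m)) := by exact_mod_cast (hQ _).1.pos
        exact ⟨Int.emod_nonneg _ hpos.ne', Int.emod_lt_of_pos _ hpos⟩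
    have hcard : (Fs.card : ℝ) ≤ ∑ k ∈ Finset.range (K + 1), (4 : ℝ) ^ e' * x ^ k := by
      have hc1 : Fs.card ≤ ∑ k ∈ Finset.range (K + 1), (Q k) ^ e' := by
        rw [hFs]
        refine Finset.card_biUnion_le.trans (Finset.sum_le_sum fun k _ => ?_)
        refine Finset.card_image_le.trans ?_
        rw [Fintype.card_piFinset]
        simp [he']
      have hc2 : (Fs.card : ℝ) ≤ ∑ k ∈ Finset.range (K + 1), ((Q k : ℝ)) ^ e' := by
        exact_mod_cast hc1
      refine hc2.trans (Finset.sum_le_sum fun k _ => ?_)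
      calc ((Q k : ℝ)) ^ e' ≤ (4 * ((2 : ℝ) ^ k) ^ τ) ^ e' :=
            pow_le_pow_left₀ (by positivity) (hQ k).2.2 _
        _ = (4 : ℝ) ^ e' * x ^ k := by
            rw [mul_pow, hx]
            congr 1
            rw [← Real.rpow_natCast (((2 : ℝ) ^ k) ^ τ) e', ← Real.rpow_mul (by positivity),
              ← Real.rpow_natCast 2 k, ← Real.rpow_mul (by norm_num),
              ← Real.rpow_natCast ((2 : ℝ) ^ (τ * (e' : ℝ))) k, ← Real.rpow_mul (by norm_num)]
            congr 1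
            ring
    have hgeo : ∑ k ∈ Finset.range (K + 1), (4 : ℝ) ^ e' * x ^ k ≤
        4 ^ e' * (x / (x - 1)) * x ^ K := by
      rw [← Finset.mul_sum, geom_sum_eq hx1.ne', mul_assoc]
      refine mul_le_mul_of_nonneg_left ?_ (by positivity)
      rw [div_mul_eq_mul_div]
      gcongr
      rw [pow_succ]
      linarith
    have hxK : x ^ K ≤ x * (R : ℝ) ^ (τ * (e' : ℝ)) := by
      have hb : ((2 : ℝ) ^ K) ≤ 2 * R := by exact_mod_cast hK2
      calc x ^ K = ((2 : ℝ) ^ K) ^ (τ * (e' : ℝ)) := by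
            rw [hx, ← Real.rpow_natCast, ← Real.rpow_mul (by norm_num), ← Real.rpow_natCast 2 K,
              ← Real.rpow_mul (by norm_num), mul_comm]
        _ ≤ (2 * R) ^ (τ * (e' : ℝ)) := Real.rpow_le_rpow (by positivity) hb (by positivity)
        _ = x * (R : ℝ) ^ (τ * (e' : ℝ)) := by
            rw [hx, Real.mul_rpow (by norm_num) (by positivity)]
    have hn : (Set.ncard (cel Q '' {m : Fin d → ℤ | ∀ i, |m i| < R}) : ℝ) ≤ Fs.card := by
      have := Set.ncard_le_ncard hsub Fs.finite_toSet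
      rw [Set.ncard_coe_finset] at this
      exact_mod_cast this
    calc _ ≤ (Fs.card : ℝ) := hn
      _ ≤ 4 ^ e' * (x / (x - 1)) * x ^ K := hcard.trans hgeo
      _ ≤ 4 ^ e' * (x / (x - 1)) * (x * (R : ℝ) ^ (τ * (e' : ℝ))) := by gcongr
      _ = _ := by ring
  · refine ⟨2 ^ e' * 3 ^ d * (2 : ℝ) ^ ((d : ℝ) * (1 - τ)), by positivity, ?_⟩
    rintro ⟨k, l⟩ R hR T hT v
    have hR1 : (1 : ℝ) ≤ R := by exact_mod_cast hR
    rcases T.eq_empty_or_nonempty with hTe | ⟨m0, hm0⟩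
    · rw [hTe]
      unfold prs
      simp only [Finset.empty_product, Finset.filter_empty, Finset.card_empty, Nat.cast_zero]
      positivity
    · have hk : ((2 : ℝ) ^ k) ≤ 2 * R := by
        have h2 := (hT m0 hm0).1
        unfold cel at h2
        rw [Prod.mk.injEq] at h2
        have h3 := two_pow_le m0 R hR (hT m0 hm0).2
        rw [h2.1] at h3
        exact_mod_cast h3
      have hc := rep_count Q (fun k => (hQ k).1) k l T (fun m hm => (hT m hm).1) v
      rw [← he'] at hc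
      have hc' : ((prs T v).card : ℝ) ≤ 2 ^ e' * (((2 ^ (k + 1) / Q k : ℕ) : ℝ) + 1) ^ d := by
        exact_mod_cast hc
      have h2k : (1 : ℝ) ≤ 2 ^ k := one_le_pow₀ (by norm_num)
      obtain ⟨z, hz⟩ : ∃ z : ℝ, z = ((2 : ℝ) ^ k) ^ (1 - τ) := ⟨_, rfl⟩
      have hz1 : 1 ≤ z := by
        rw [hz]
        exact Real.one_le_rpow h2k (by linarith)
      have hdiv : ((2 ^ (k + 1) / Q k : ℕ) : ℝ) ≤ 2 * z := by
        have hQp : (0 : ℝ) < Q k := by exact_mod_cast (hQ k).1.pos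
        refine Nat.cast_div_le.trans ?_
        rw [div_le_iff₀ hQp]
        push_cast
        have h3 : z * ((2 : ℝ) ^ k) ^ τ = 2 ^ k := by
          rw [hz, ← Real.rpow_add (by positivity)]
          rw [show 1 - τ + τ = 1 by ring, Real.rpow_one]
        calc (2 : ℝ) ^ (k + 1) = 2 * (z * ((2 : ℝ) ^ k) ^ τ) := by rw [h3, pow_succ]; ring
          _ ≤ 2 * (z * Q k) := by
              gcongr
              exact (hQ k).2.1
          _ = 2 * z * Q k := by ring
      have hzR : z ^ d ≤ (2 : ℝ) ^ ((d : ℝ) * (1 - τ)) * (R : ℝ) ^ ((d : ℝ) * (1 - τ)) := by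
        rw [← Real.mul_rpow (by norm_num) (by positivity), hz, ← Real.rpow_natCast,
          ← Real.rpow_mul (by positivity), mul_comm (1 - τ)]
        refine Real.rpow_le_rpow (by positivity) hk ?_
        have : 0 ≤ 1 - τ := by linarith
        positivity
      calc ((prs T v).card : ℝ) ≤ 2 ^ e' * (((2 ^ (k + 1) / Q k : ℕ) : ℝ) + 1) ^ d := hc'
        _ ≤ 2 ^ e' * (3 * z) ^ d := by
            gcongr
            linarith
        _ = 2 ^ e' * 3 ^ d * z ^ d := by rw [mul_pow]; ring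
        _ ≤ 2 ^ e' * 3 ^ d * ((2 : ℝ) ^ ((d : ℝ) * (1 - τ)) * (R : ℝ) ^ ((d : ℝ) * (1 - τ))) := by
            gcongr
        _ = _ := by ring

end

end Pool.Agent.Run7.h88.LS
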