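import Pool.Agent.Run7.h88.LS.Sgn

/-!
# Random multipliers and the wave equation (MP_ee74d2_an), part 7: cells with few representations
-/

set_option autoImplicit false

namespace Pool.Agent.Run7.h88.LS

open MeasureTheory Pool.Agent.N303.LS Pool.Agent.N262.LS
open scoped ENNReal FourierTransform RealInnerProductSpace SchwartzMap ComplexConjugate

/-- the half-open unit cube -/
def UC (d : ℕ) : Set (E d) := {x : E d | ∀ i, x i ∈ Set.Ico (0 : ℝ) 1}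

lemma Q_zero (d : ℕ) : (Q (0 : E d)) = UC d := by
  ext x
  unfold Q UC
  simp

lemma UC_sub (d : ℕ) : UC d ⊆ Pool.Agent.N492.LS.cu 1 (0 : E d) := by
  intro x hx i
  have := hx i
  simp only [Set.mem_Ico] at this
  have e0 : (0 : E d) i = 0 := rfl
  rw [e0, sub_zero, abs_of_nonneg this.1]
  push_cast
  exact this.2.le

open Classical in
/-- the pairs with the sum `v` -/
noncomputable def prs {d : ℕ} (T : Finset (Fin d → ℤ)) (v : Fin d → ℤ) :
    Finset ((Fin d → ℤ) × (Fin d → ℤ)) := (T ×ˢ T).filter fun q => q.1 + q.2 = v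

lemma par_le {d : ℕ} (T : Finset (Fin d → ℤ)) (c : (Fin d → ℤ) → ℂ) :
    ∫⁻ x in UC d, ‖Pool.Agent.N492.LS.tp T c x‖ₑ ^ (2 : ℝ) ≤
      ENNReal.ofReal ((2 : ℝ) ^ d * ∑ m ∈ T, ‖c m‖ ^ 2) := by
  refine (lintegral_mono_set (UC_sub d)).trans ?_
  rw [Pool.Agent.N492.LS.lint_sq 1 (0 : E d) (Pool.Agent.N492.LS.cont_tp T c)]
  refine ENNReal.ofReal_le_ofReal (le_of_eq ?_)
  rw [Pool.Agent.N492.LS.parseval 1 (0 : E d) T c]
  push_cast
  ring

open Classical in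
lemma tp_sq {d : ℕ} (T : Finset (Fin d → ℤ)) (c : (Fin d → ℤ) → ℂ) (x : E d) :
    Pool.Agent.N492.LS.tp T c x ^ 2 =
      Pool.Agent.N492.LS.tp ((T ×ˢ T).image fun q => q.1 + q.2)
        (fun v => ∑ q ∈ prs T v, c q.1 * c q.2) x := by
  unfold Pool.Agent.N492.LS.tp
  rw [sq, Finset.sum_mul_sum, ← Finset.sum_product',
    ← Finset.sum_fiberwise_of_maps_to (s := T ×ˢ T) (t := (T ×ˢ T).image fun q => q.1 + q.2)
      (g := fun q => q.1 + q.2) (fun q hq => Finset.mem_image_of_mem _ hq)]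
  refine Finset.sum_congr rfl fun v _ => ?_
  rw [Finset.sum_mul]
  unfold prs
  refine Finset.sum_congr rfl fun q hq => ?_
  have hv : q.1 + q.2 = v := (Finset.mem_filter.1 hq).2
  have hpt : (pt v : E d) = pt q.1 + pt q.2 := by
    rw [← hv]
    ext j
    simp [pt]
  rw [hpt, inner_add_right, Pool.Agent.N492.LS.e_add]
  ring

open Classical in
lemma l4 {d : ℕ} (T : Finset (Fin d → ℤ)) (c : (Fin d → ℤ) → ℂ) (M : ℝ)
    (hM : ∀ v, ((prs T v).card : ℝ) ≤ M) :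
    ∫⁻ x in UC d, ‖Pool.Agent.N492.LS.tp T c x‖ₑ ^ (4 : ℝ) ≤
      ENNReal.ofReal ((2 : ℝ) ^ d * (M * (∑ m ∈ T, ‖c m‖ ^ 2) ^ 2)) := by
  have h1 : ∀ x : E d, ‖Pool.Agent.N492.LS.tp T c x‖ₑ ^ (4 : ℝ) =
      ‖Pool.Agent.N492.LS.tp ((T ×ˢ T).image fun q => q.1 + q.2)
        (fun v => ∑ q ∈ prs T v, c q.1 * c q.2) x‖ₑ ^ (2 : ℝ) := by
    intro x
    rw [← tp_sq, enorm_pow, ← ENNReal.rpow_natCast, ← ENNReal.rpow_mul]
    norm_num
  simp only [h1]
  refine (par_le _ _).trans (ENNReal.ofReal_le_ofReal ?_)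
  refine mul_le_mul_of_nonneg_left ?_ (by positivity)
  calc ∑ v ∈ (T ×ˢ T).image (fun q => q.1 + q.2), ‖∑ q ∈ prs T v, c q.1 * c q.2‖ ^ 2
      ≤ ∑ v ∈ (T ×ˢ T).image (fun q => q.1 + q.2),
          M * ∑ q ∈ prs T v, ‖c q.1‖ ^ 2 * ‖c q.2‖ ^ 2 := by
        refine Finset.sum_le_sum fun v _ => ?_
        have h2 : ‖∑ q ∈ prs T v, c q.1 * c q.2‖ ≤ ∑ q ∈ prs T v, ‖c q.1‖ * ‖c q.2‖ :=
          (norm_sum_le _ _).trans (le_of_eq (Finset.sum_congr rfl fun q _ => norm_mul _ _))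
        calc ‖∑ q ∈ prs T v, c q.1 * c q.2‖ ^ 2 ≤ (∑ q ∈ prs T v, ‖c q.1‖ * ‖c q.2‖) ^ 2 :=
              pow_le_pow_left₀ (norm_nonneg _) h2 2
          _ ≤ (prs T v).card * ∑ q ∈ prs T v, (‖c q.1‖ * ‖c q.2‖) ^ 2 :=
              sq_sum_le_card_mul_sum_sq
          _ ≤ M * ∑ q ∈ prs T v, (‖c q.1‖ * ‖c q.2‖) ^ 2 :=
              mul_le_mul_of_nonneg_right (hM v) (Finset.sum_nonneg fun _ _ => by positivity)
          _ = _ := by
              congr 1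
              exact Finset.sum_congr rfl fun q _ => mul_pow _ _ _
    _ = M * ∑ q ∈ T ×ˢ T, ‖c q.1‖ ^ 2 * ‖c q.2‖ ^ 2 := by
        rw [← Finset.mul_sum]
        congr 1
        unfold prs
        exact Finset.sum_fiberwise_of_maps_to (s := T ×ˢ T)
          (t := (T ×ˢ T).image fun q => q.1 + q.2)
          (g := fun q => q.1 + q.2) (fun q hq => Finset.mem_image_of_mem _ hq) _
    _ = M * (∑ m ∈ T, ‖c m‖ ^ 2) ^ 2 := by
        rw [sq, Finset.sum_mul_sum, ← Finset.sum_product']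

/-- cells with few representations -/
lemma lam_rep (d : ℕ) (p : ℝ) (hp : 2 ≤ p) (hp4 : p ≤ 4) (T : Finset (Fin d → ℤ)) (M : ℝ)
    (hM : ∀ v, ((prs T v).card : ℝ) ≤ M) :
    Lam p (((2 : ℝ) ^ d) ^ (1 / p) * M ^ (1 / 2 - 1 / p)) T (fun _ => 1) := by
  intro c
  have hp0 : 0 < p := by linarith
  have hM0 : 0 ≤ M := le_trans (by positivity) (hM 0)
  obtain ⟨S, hS⟩ : ∃ S : ℝ, S = ∑ m ∈ T, ‖c m‖ ^ 2 := ⟨_, rfl⟩
  have hS0 : 0 ≤ S := by rw [hS]; exact Finset.sum_nonneg fun _ _ => by positivity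
  have hSe : ∑ m ∈ T, ‖c m‖ₑ ^ (2 : ℝ) = ENNReal.ofReal S := by
    rw [hS, ENNReal.ofReal_sum_of_nonneg fun _ _ => by positivity]
    refine Finset.sum_congr rfl fun m _ => ?_
    rw [Pool.Agent.N492.LS.en2]
  have htp : ∀ x : E d, ∑ m ∈ T, (1 : ℂ) * c m *
      Complex.exp (((2 * Real.pi * ⟪x, pt m⟫ : ℝ) : ℂ) * Complex.I) =
      Pool.Agent.N492.LS.tp T c x := by
    intro x
    unfold Pool.Agent.N492.LS.tp Pool.Agent.N492.LS.e
    exact Finset.sum_congr rfl fun m _ => by rw [one_mul]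
  simp only [htp]
  have hset : {x : E d | ∀ i, x i ∈ Set.Ico (0 : ℝ) 1} = UC d := rfl
  rw [hset]
  have hpar := par_le T c
  have h4 := l4 T c M hM
  rw [← hS] at hpar h4
  have hmt : Measurable fun x => ‖Pool.Agent.N492.LS.tp T c x‖ₑ :=
    (Pool.Agent.N492.LS.cont_tp T c).measurable.enorm
  have hpw : ∀ x : E d, ‖Pool.Agent.N492.LS.tp T c x‖ₑ ^ p =
      (‖Pool.Agent.N492.LS.tp T c x‖ₑ ^ (2 : ℝ)) ^ (2 - p / 2) *
        (‖Pool.Agent.N492.LS.tp T c x‖ₑ ^ (4 : ℝ)) ^ (p / 2 - 1) := by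
    intro x
    rw [← ENNReal.rpow_mul, ← ENNReal.rpow_mul,
      ← ENNReal.rpow_add_of_nonneg _ _ (by linarith) (by linarith)]
    congr 1
    ring
  calc ∫⁻ x in UC d, ‖Pool.Agent.N492.LS.tp T c x‖ₑ ^ p
      = ∫⁻ x in UC d, (‖Pool.Agent.N492.LS.tp T c x‖ₑ ^ (2 : ℝ)) ^ (2 - p / 2) *
        (‖Pool.Agent.N492.LS.tp T c x‖ₑ ^ (4 : ℝ)) ^ (p / 2 - 1) := lintegral_congr hpw
    _ ≤ (∫⁻ x in UC d, ‖Pool.Agent.N492.LS.tp T c x‖ₑ ^ (2 : ℝ)) ^ (2 - p / 2) *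
        (∫⁻ x in UC d, ‖Pool.Agent.N492.LS.tp T c x‖ₑ ^ (4 : ℝ)) ^ (p / 2 - 1) :=
        ENNReal.lintegral_mul_norm_pow_le (hmt.pow_const _).aemeasurable
          (hmt.pow_const _).aemeasurable (by linarith) (by linarith) (by ring)
    _ ≤ ENNReal.ofReal ((2 : ℝ) ^ d * S) ^ (2 - p / 2) *
        ENNReal.ofReal ((2 : ℝ) ^ d * (M * S ^ 2)) ^ (p / 2 - 1) :=
        mul_le_mul' (ENNReal.rpow_le_rpow hpar (by linarith))
          (ENNReal.rpow_le_rpow h4 (by linarith))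
    _ = _ := by
        rw [hSe, ENNReal.ofReal_rpow_of_nonneg hS0 (by positivity),
          ENNReal.ofReal_rpow_of_nonneg (by positivity) (by linarith),
          ENNReal.ofReal_rpow_of_nonneg (by positivity) (by linarith),
          ← ENNReal.ofReal_mul (by positivity), ← ENNReal.ofReal_mul (by positivity)]
        congr 1
        have h3 : (((2 : ℝ) ^ d) ^ (1 / p) * M ^ (1 / 2 - 1 / p)) ^ p =
            2 ^ d * M ^ (p / 2 - 1) := by
          rw [Real.mul_rpow (by positivity) (by positivity), ← Real.rpow_mul (by positivity),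
            one_div_mul_cancel hp0.ne', Real.rpow_one, ← Real.rpow_mul hM0]
          congr 2
          field_simp
        have h5 : ((2 : ℝ) ^ d) ^ (2 - p / 2) * ((2 : ℝ) ^ d) ^ (p / 2 - 1) = 2 ^ d := by
          rw [← Real.rpow_add (by positivity)]
          rw [show 2 - p / 2 + (p / 2 - 1) = 1 by ring, Real.rpow_one]
        have h6 : S ^ (2 - p / 2) * (S ^ 2) ^ (p / 2 - 1) = S ^ (p / 2) := by
          rw [← Real.rpow_natCast S 2, ← Real.rpow_mul hS0,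
            ← Real.rpow_add_of_nonneg hS0 (by linarith) (by push_cast; nlinarith)]
          congr 1
          push_cast
          ring
        rw [h3, Real.mul_rpow (by positivity) hS0, Real.mul_rpow (by positivity) (by positivity),
          Real.mul_rpow hM0 (by positivity)]
        calc ((2 : ℝ) ^ d) ^ (2 - p / 2) * S ^ (2 - p / 2) *
            (((2 : ℝ) ^ d) ^ (p / 2 - 1) * (M ^ (p / 2 - 1) * (S ^ 2) ^ (p / 2 - 1)))
            = (((2 : ℝ) ^ d) ^ (2 - p / 2) * ((2 : ℝ) ^ d) ^ (p / 2 - 1)) * M ^ (p / 2 - 1) *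
              (S ^ (2 - p / 2) * (S ^ 2) ^ (p / 2 - 1)) := by ring
          _ = _ := by rw [h5, h6]

end Pool.Agent.Run7.h88.LS
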