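import Pool.Agent.Run7.h88.LS.Gen
import Pool.Agent.Helper623_LS.Khin

/-!
# Random multipliers and the wave equation (MP_ee74d2_an), part 6: random signs
-/

set_option autoImplicit false

namespace Pool.Agent.Run7.h88.LS

open MeasureTheory Pool.Agent.N303.LS Pool.Agent.N262.LS
open scoped ENNReal FourierTransform RealInnerProductSpace SchwartzMap ComplexConjugate

/-- Khintchine's inequality -/
theorem khi : S_KHI := by
  intro p hp
  obtain ⟨K, hK, h⟩ := Pool.Agent.Helper623_LS.khin_upper p (by linarith)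
  refine ⟨K, by linarith, fun ι _ _ a => ?_⟩
  obtain ⟨N, hN⟩ : ∃ N, N = Fintype.card ι := ⟨_, rfl⟩
  have e : ι ≃ Fin N := (Fintype.equivFin ι).trans (finCongr hN.symm)
  have h1 := h N ℂ fun k => a (e.symm k)
  unfold Pool.Agent.Helper623_LS.avg at h1
  rw [div_le_iff₀ (by positivity)] at h1
  have h2 : ∑ k, ‖a (e.symm k)‖ ^ 2 = ∑ i, ‖a i‖ ^ 2 :=
    Equiv.sum_comp e.symm fun i => ‖a i‖ ^ 2
  rw [h2] at h1
  have h3 : ∑ ε : Fin N → Bool, ‖∑ k, Pool.Agent.Helper623_LS.sg (ε k) • a (e.symm k)‖ ^ p =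
      ∑ ε : ι → Bool, ‖∑ i, (if ε i then a i else - a i)‖ ^ p := by
    refine Fintype.sum_equiv (Equiv.arrowCongr e.symm (Equiv.refl Bool)) _ _ fun ε => ?_
    congr 2
    refine Fintype.sum_equiv e.symm _ _ fun k => ?_
    simp only [Equiv.arrowCongr_apply, Equiv.symm_symm, Equiv.coe_refl, Function.comp,
      Equiv.apply_symm_apply, id_eq, Pool.Agent.Helper623_LS.sg]
    by_cases hk : ε k = true <;> simp [hk]
  beta_reduce at h1
  rw [h3] at h1
  rw [← hN]
  calc _ ≤ K * (∑ i, ‖a i‖ ^ 2) ^ (p / 2) * 2 ^ N := h1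
    _ = _ := by ring

section

variable {d : ℕ} {Ω : Type} [MeasurableSpace Ω]

/-- independent fair coins -/
def Coins {ι : Type} (P : Measure Ω) (ε : ι → Ω → Bool) : Prop :=
  (∀ i, Measurable (ε i)) ∧ ProbabilityTheory.iIndepFun ε P ∧
    ∀ i, P {ω | ε i ω = true} = 1 / 2

/-- the expectation of a function of finitely many coins -/
lemma coins_lint {ι : Type} [DecidableEq ι] {P : Measure Ω} [IsProbabilityMeasure P] {ε : ι → Ω → Bool}
    (hε : Coins P ε) (J : Finset ι) (f : (J → Bool) → ℝ≥0∞) :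
    ∫⁻ ω, f (fun i => ε i ω) ∂P = (∑ x, f x) * (2⁻¹) ^ J.card := by
  obtain ⟨hm, hi, hp⟩ := hε
  have hi' := hi.precomp (g := fun i : J => (i : ι)) Subtype.val_injective
  have hg : Measurable fun ω => fun i : J => ε i ω := measurable_pi_lambda _ fun i => hm i
  have h1 := (ProbabilityTheory.iIndepFun_iff_map_fun_eq_pi_map
    (fun i : J => (hm i).aemeasurable)).1 hi'
  have hb : ∀ (i : ι) (b : Bool), (P.map (ε i)) {b} = 2⁻¹ := by
    intro i b
    rw [Measure.map_apply (hm i) (measurableSet_singleton b)]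
    have ht : ε i ⁻¹' {true} = {ω | ε i ω = true} := by
      ext ω
      simp
    cases b with
    | true => rw [ht, hp i, one_div]
    | false =>
      have hf : ε i ⁻¹' {false} = {ω | ε i ω = true}ᶜ := by
        ext ω
        simp
      have hms : MeasurableSet {ω | ε i ω = true} := by
        rw [← ht]
        exact hm i (measurableSet_singleton true)
      rw [hf, measure_compl hms (measure_ne_top _ _), hp i, measure_univ, one_div,
        ENNReal.one_sub_inv_two]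
  calc ∫⁻ ω, f (fun i => ε i ω) ∂P
      = ∫⁻ x, f x ∂(P.map fun ω => fun i : J => ε i ω) :=
        (lintegral_map (measurable_of_finite f) hg).symm
    _ = ∑ x, f x * (P.map fun ω => fun i : J => ε i ω) {x} := lintegral_fintype _
    _ = _ := by
        rw [h1, Finset.sum_mul]
        refine Finset.sum_congr rfl fun x _ => ?_
        rw [Measure.pi_singleton]
        congr 1
        rw [Finset.prod_congr rfl fun (i : J) _ => hb i (x i), Finset.prod_const, Finset.card_univ,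
          Fintype.card_coe]

/-- Khintchine's inequality for independent fair coins -/
lemma khi_coins (p : ℝ) (hp : 2 ≤ p) : ∃ C : ℝ, 0 < C ∧
    ∀ (Ω : Type) [MeasurableSpace Ω] (ι : Type) (P : Measure Ω) [IsProbabilityMeasure P]
      (ε : ι → Ω → Bool) (_ : Coins P ε) (J : Finset ι) (a : ι → ℂ),
      ∫⁻ ω, ‖∑ i ∈ J, (if ε i ω then a i else - a i)‖ₑ ^ p ∂P ≤
        ENNReal.ofReal C * (∑ i ∈ J, ‖a i‖ₑ ^ (2 : ℝ)) ^ (p / 2) := by
  classical
  obtain ⟨C, hC, h⟩ := khi_enn khi p hp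
  refine ⟨C, hC, fun Ω _ ι P _ ε hε J a => ?_⟩
  have h1 := h J fun i => a i
  have h2 := coins_lint hε J fun x => ‖∑ i : J, (if x i then a i else - a i)‖ₑ ^ p
  have h3 : ∀ ω, ∑ i ∈ J, (if ε i ω then a i else - a i) =
      ∑ i : J, (if ε i ω then a i else - a i) := fun ω =>
    (Finset.sum_coe_sort J fun i => if ε i ω then a i else - a i).symm
  simp only [h3]
  rw [h2]
  have h4 : ∑ i : J, ‖a i‖ₑ ^ (2 : ℝ) = ∑ i ∈ J, ‖a i‖ₑ ^ (2 : ℝ) :=
    Finset.sum_coe_sort J fun i => ‖a i‖ₑ ^ (2 : ℝ)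
  rw [h4, Fintype.card_coe] at h1
  refine (mul_le_mul_left h1 _).trans (le_of_eq ?_)
  rw [ENNReal.ofReal_mul hC.le, ENNReal.ofReal_pow (by norm_num), ENNReal.ofReal_ofNat]
  have h5 : (2 : ℝ≥0∞) ^ J.card * (2⁻¹) ^ J.card = 1 := by
    rw [← mul_pow, ENNReal.mul_inv_cancel (by norm_num) (by norm_num), one_pow]
  calc _ = ENNReal.ofReal C * (∑ i ∈ J, ‖a i‖ₑ ^ (2 : ℝ)) ^ (p / 2) *
        ((2 : ℝ≥0∞) ^ J.card * (2⁻¹) ^ J.card) := by ring
    _ = _ := by rw [h5, mul_one]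

/-- Minkowski's inequality -/
lemma mink {X ι : Type} [MeasurableSpace X] (ν : Measure X) (p : ℝ) (hp : 2 ≤ p) (J : Finset ι)
    (f : ι → X → ℂ) (hf : ∀ i, Measurable (f i)) :
    ∫⁻ x, (∑ i ∈ J, ‖f i x‖ₑ ^ (2 : ℝ)) ^ (p / 2) ∂ν ≤
      (∑ i ∈ J, (∫⁻ x, ‖f i x‖ₑ ^ p ∂ν) ^ (2 / p)) ^ (p / 2) := by
  have hp0 : 0 < p / 2 := by linarith
  have hpt : ENNReal.ofReal (p / 2) ≠ 0 := by
    rw [Ne, ENNReal.ofReal_eq_zero]
    linarith
  have hpt2 : ENNReal.ofReal (p / 2) ≠ ⊤ := ENNReal.ofReal_ne_top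
  have e1 : ∀ g : X → ℝ, eLpNorm g (ENNReal.ofReal (p / 2)) ν =
      (∫⁻ x, ‖g x‖ₑ ^ (p / 2) ∂ν) ^ (1 / (p / 2)) := by
    intro g
    rw [eLpNorm_eq_lintegral_rpow_enorm_toReal hpt hpt2, ENNReal.toReal_ofReal hp0.le]
  have h2 : ∀ i x, ‖‖f i x‖ ^ 2‖ₑ = ‖f i x‖ₑ ^ (2 : ℝ) := by
    intro i x
    rw [enorm_pow, enorm_norm, ← ENNReal.rpow_natCast]
    norm_num
  have h3 : eLpNorm (∑ i ∈ J, fun x => ‖f i x‖ ^ 2) (ENNReal.ofReal (p / 2)) ν ≤
      ∑ i ∈ J, eLpNorm (fun x => ‖f i x‖ ^ 2) (ENNReal.ofReal (p / 2)) ν :=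
    eLpNorm_sum_le (fun i _ => ((hf i).norm.pow_const 2).aestronglyMeasurable)
      (by rw [← ENNReal.ofReal_one]; exact ENNReal.ofReal_le_ofReal (by linarith))
  rw [e1] at h3
  simp only [e1] at h3
  have h4 : ∀ x, ‖(∑ i ∈ J, fun x => ‖f i x‖ ^ 2) x‖ₑ = ∑ i ∈ J, ‖f i x‖ₑ ^ (2 : ℝ) := by
    intro x
    rw [Finset.sum_apply]
    have h5 : 0 ≤ ∑ i ∈ J, ‖f i x‖ ^ 2 := Finset.sum_nonneg fun i _ => by positivity
    rw [Real.enorm_eq_ofReal h5, ENNReal.ofReal_sum_of_nonneg fun i _ => by positivity]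
    refine Finset.sum_congr rfl fun i _ => ?_
    rw [← h2, Real.enorm_eq_ofReal (by positivity)]
  simp only [h4, h2] at h3
  have h5 := ENNReal.rpow_le_rpow h3 hp0.le
  rw [← ENNReal.rpow_mul, one_div_mul_cancel hp0.ne', ENNReal.rpow_one] at h5
  refine h5.trans (le_of_eq ?_)
  congr 1
  refine Finset.sum_congr rfl fun i _ => ?_
  have e2 : 1 / (p / 2) = 2 / p := by field_simp
  rw [e2]
  congr 1
  refine lintegral_congr fun x => ?_
  rw [← ENNReal.rpow_mul]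
  congr 1
  ring

/-- `L^p` bounds for the cells give an averaged `L^p` bound -/
lemma lam_signs (p : ℝ) (hp : 2 ≤ p) : ∃ C : ℝ, 0 < C ∧
    ∀ (d : ℕ) (Ω : Type) [MeasurableSpace Ω] (ι : Type) (P : Measure Ω) [IsProbabilityMeasure P]
      (ε : ι → Ω → Bool) (_ : Coins P ε) (cell : (Fin d → ℤ) → ι) (b : (Fin d → ℤ) → ℂ)
      (T : Finset (Fin d → ℤ)) (Λ : ℝ), 0 ≤ Λ →
      (∀ (i : ι) (U : Finset (Fin d → ℤ)), U ⊆ T → (∀ m ∈ U, cell m = i) → Lam p Λ U b) →
      LamM P p (C * Λ) T fun ω m => (if ε (cell m) ω then b m else - b m) := by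
  classical
  obtain ⟨C, hC, h⟩ := khi_coins p hp
  have hp0 : 0 < p := by linarith
  refine ⟨C ^ (1 / p), by positivity, ?_⟩
  intro d Ω _ ι P _ ε hε cell b T Λ hΛ hL c
  obtain ⟨J, hJ⟩ : ∃ J, J = T.image cell := ⟨_, rfl⟩
  obtain ⟨U, hU⟩ : ∃ U : ι → Finset (Fin d → ℤ), U = fun i => T.filter (cell · = i) := ⟨_, rfl⟩
  obtain ⟨Pf, hPf⟩ : ∃ Pf : ι → E d → ℂ, Pf = fun i =>
    Pool.Agent.N492.LS.tp (U i) fun m => b m * c m := ⟨_, rfl⟩
  have hPm : ∀ i, Measurable (Pf i) := by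
    intro i
    rw [hPf]
    exact (Pool.Agent.N492.LS.cont_tp _ _).measurable
  have hsum : ∀ ω x, Pool.Agent.N492.LS.tp T
      (fun m => (if ε (cell m) ω then b m else - b m) * c m) x =
      ∑ i ∈ J, (if ε i ω then Pf i x else - Pf i x) := by
    intro ω x
    unfold Pool.Agent.N492.LS.tp
    rw [← Finset.sum_fiberwise_of_maps_to (s := T) (t := J) (g := cell)
      (fun m hm => by rw [hJ]; exact Finset.mem_image_of_mem _ hm)]
    refine Finset.sum_congr rfl fun i _ => ?_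
    rw [hPf, hU]
    unfold Pool.Agent.N492.LS.tp
    by_cases hi : ε i ω = true
    · rw [if_pos hi]
      refine Finset.sum_congr rfl fun m hm => ?_
      have hcm : cell m = i := (Finset.mem_filter.1 hm).2
      simp only [hcm, hi, if_true]
    · rw [if_neg hi, ← Finset.sum_neg_distrib]
      refine Finset.sum_congr rfl fun m hm => ?_
      have hcm : cell m = i := (Finset.mem_filter.1 hm).2
      simp only [hcm, hi, if_false, Bool.false_eq_true]
      ring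
  have hmeas : ∀ m : Fin d → ℤ, Measurable fun ω => (if ε (cell m) ω then b m else - b m) := by
    intro m
    exact (measurable_of_finite fun t : Bool => if t then b m else - b m).comp (hε.1 (cell m))
  have hjm := tp_meas T (α := fun ω m => (if ε (cell m) ω then b m else - b m)) hmeas c
  have hset : (Q (0 : E d)) = {x : E d | ∀ i, x i ∈ Set.Ico (0 : ℝ) 1} := by
    ext x
    unfold Q
    simp
  have hone : ∀ i, (∫⁻ x in Q (0 : E d), ‖Pf i x‖ₑ ^ p) ^ (2 / p) ≤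
      ENNReal.ofReal (Λ ^ 2) * ∑ m ∈ U i, ‖c m‖ₑ ^ (2 : ℝ) := by
    intro i
    have h1 := hL i (U i) (by rw [hU]; exact Finset.filter_subset _ _)
      (fun m hm => by rw [hU] at hm; exact (Finset.mem_filter.1 hm).2) c
    rw [← hset] at h1
    have h2 := ENNReal.rpow_le_rpow h1 (z := 2 / p) (by positivity)
    rw [ENNReal.mul_rpow_of_nonneg _ _ (by positivity), ← ENNReal.rpow_mul,
      show p / 2 * (2 / p) = 1 by field_simp, ENNReal.rpow_one,
      ENNReal.ofReal_rpow_of_nonneg (by positivity) (by positivity), ← Real.rpow_mul hΛ,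
      show p * (2 / p) = 2 by field_simp, Real.rpow_two] at h2
    rw [hPf]
    exact h2
  calc ∫⁻ ω, (∫⁻ x in Q (0 : E d), ‖Pool.Agent.N492.LS.tp T
        (fun m => (if ε (cell m) ω then b m else - b m) * c m) x‖ₑ ^ p) ∂P
      = ∫⁻ x in Q (0 : E d), (∫⁻ ω, ‖Pool.Agent.N492.LS.tp T
        (fun m => (if ε (cell m) ω then b m else - b m) * c m) x‖ₑ ^ p ∂P) :=
        lintegral_lintegral_swap (hjm.enorm.pow_const p).aemeasurable
    _ ≤ ∫⁻ x in Q (0 : E d), ENNReal.ofReal C * (∑ i ∈ J, ‖Pf i x‖ₑ ^ (2 : ℝ)) ^ (p / 2) := by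
        refine lintegral_mono fun x => ?_
        simp only [hsum]
        exact h Ω ι P ε hε J fun i => Pf i x
    _ = ENNReal.ofReal C * ∫⁻ x in Q (0 : E d), (∑ i ∈ J, ‖Pf i x‖ₑ ^ (2 : ℝ)) ^ (p / 2) :=
        lintegral_const_mul' _ _ ENNReal.ofReal_ne_top
    _ ≤ ENNReal.ofReal C * (∑ i ∈ J, (∫⁻ x in Q (0 : E d), ‖Pf i x‖ₑ ^ p) ^ (2 / p)) ^ (p / 2) := by
        gcongr
        exact mink _ p hp J Pf hPm
    _ ≤ ENNReal.ofReal C * (∑ i ∈ J, ENNReal.ofReal (Λ ^ 2) *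
          ∑ m ∈ U i, ‖c m‖ₑ ^ (2 : ℝ)) ^ (p / 2) := by
        gcongr with i _
        exact hone i
    _ = _ := by
        rw [← Finset.mul_sum]
        have h6 : ∑ i ∈ J, ∑ m ∈ U i, ‖c m‖ₑ ^ (2 : ℝ) = ∑ m ∈ T, ‖c m‖ₑ ^ (2 : ℝ) := by
          rw [hU]
          exact Finset.sum_fiberwise_of_maps_to
            (fun m hm => by rw [hJ]; exact Finset.mem_image_of_mem _ hm) _
        rw [h6, ENNReal.mul_rpow_of_nonneg _ _ (by positivity), ← mul_assoc]
        congr 1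
        rw [ENNReal.ofReal_rpow_of_nonneg (by positivity) (by positivity),
          ← ENNReal.ofReal_mul hC.le, ← Real.rpow_natCast, ← Real.rpow_mul hΛ,
          Real.mul_rpow (by positivity) hΛ, ← Real.rpow_mul hC.le, one_div_mul_cancel hp0.ne',
          Real.rpow_one]
        congr 3
        push_cast
        ring

end

end Pool.Agent.Run7.h88.LS
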