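import Pool.Agent.Run7.h88.LS.Wav

/-!
# Random multipliers and the wave equation (MP_ee74d2_an), part 3: summation of the shells
-/

set_option autoImplicit false

namespace Pool.Agent.Run7.h88.LS

open MeasureTheory Pool.Agent.N303.LS Pool.Agent.N262.LS
open scoped ENNReal FourierTransform RealInnerProductSpace SchwartzMap ComplexConjugate

/-- summation of the norms of the shells -/
lemma geoM {X : Type} [MeasurableSpace X] (ν : Measure X) (p : ℝ) (hp : 1 ≤ p) (w : ℕ → X → ℂ)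
    (hw : ∀ c, Measurable (w c)) (Q q : ℝ)
    (hQ : 0 ≤ Q) (hq0 : 0 ≤ q) (hq1 : q < 1) (B : ℝ≥0∞)
    (h : ∀ c, ∫⁻ x, ‖w c x‖ₑ ^ p ∂ν ≤ ENNReal.ofReal (Q ^ p * (q ^ p) ^ c) * B) (N : ℕ) :
    ∫⁻ x, ‖∑ c ∈ Finset.range N, w c x‖ₑ ^ p ∂ν ≤ ENNReal.ofReal ((Q / (1 - q)) ^ p) * B := by
  have hp0 : 0 < p := by linarith
  have hpt : ENNReal.ofReal p ≠ 0 := by
    rw [Ne, ENNReal.ofReal_eq_zero]
    linarith
  have hpt2 : ENNReal.ofReal p ≠ ⊤ := ENNReal.ofReal_ne_top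
  have e1 : ∀ f : X → ℂ, eLpNorm f (ENNReal.ofReal p) ν = (∫⁻ x, ‖f x‖ₑ ^ p ∂ν) ^ (1 / p) := by
    intro f
    rw [eLpNorm_eq_lintegral_rpow_enorm_toReal hpt hpt2, ENNReal.toReal_ofReal hp0.le]
  have h2 : ∀ c, eLpNorm (w c) (ENNReal.ofReal p) ν ≤
      ENNReal.ofReal (Q * q ^ c) * B ^ (1 / p) := by
    intro c
    rw [e1]
    refine (ENNReal.rpow_le_rpow (h c) (by positivity)).trans (le_of_eq ?_)
    rw [ENNReal.mul_rpow_of_nonneg _ _ (by positivity),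
      ENNReal.ofReal_rpow_of_nonneg (by positivity) (by positivity)]
    congr 2
    have e2 : Q ^ p * (q ^ p) ^ c = (Q * q ^ c) ^ p := by
      rw [Real.mul_rpow hQ (by positivity), ← Real.rpow_natCast (q ^ p) c, ← Real.rpow_mul hq0,
        ← Real.rpow_natCast q c, ← Real.rpow_mul hq0, mul_comm p]
    rw [e2, ← Real.rpow_mul (by positivity), mul_one_div, div_self hp0.ne', Real.rpow_one]
  have h3 : eLpNorm (∑ c ∈ Finset.range N, w c) (ENNReal.ofReal p) ν ≤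
      ENNReal.ofReal (Q / (1 - q)) * B ^ (1 / p) := by
    refine (eLpNorm_sum_le (fun c _ => (hw c).aestronglyMeasurable)
      (by rw [← ENNReal.ofReal_one]; exact ENNReal.ofReal_le_ofReal hp)).trans ?_
    refine (Finset.sum_le_sum fun c _ => h2 c).trans ?_
    rw [← Finset.sum_mul, ← ENNReal.ofReal_sum_of_nonneg fun c _ => by positivity,
      ← Finset.mul_sum]
    gcongr
    rw [div_eq_mul_inv]
    gcongr
    have hs := (summable_geometric_of_lt_one hq0 hq1)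
    calc ∑ c ∈ Finset.range N, q ^ c ≤ ∑' c, q ^ c :=
          hs.sum_le_tsum _ fun c _ => by positivity
      _ = (1 - q)⁻¹ := tsum_geometric_of_lt_one hq0 hq1
  rw [e1] at h3
  have h4 := ENNReal.rpow_le_rpow h3 hp0.le
  rw [← ENNReal.rpow_mul, one_div_mul_cancel hp0.ne', ENNReal.rpow_one,
    ENNReal.mul_rpow_of_nonneg _ _ hp0.le, ← ENNReal.rpow_mul, one_div_mul_cancel hp0.ne',
    ENNReal.rpow_one, ENNReal.ofReal_rpow_of_nonneg (div_nonneg hQ (by linarith)) hp0.le] at h4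
  simpa only [Finset.sum_apply] using h4

section

variable {d : ℕ}

/-- the multiplier `∑_{m ∈ ℤ^d} a_m χ(ξ - m)` -/
noncomputable def mlt (χ : 𝓢(E d, ℂ)) (a : (Fin d → ℤ) → ℂ) (ξ : E d) : ℂ :=
  ∑' m : Fin d → ℤ, a m * χ (ξ - pt m)

/-- the lattice points near `ξ` -/
noncomputable def nb (a : ℕ) (ξ : E d) : Finset (Fin d → ℤ) :=
  Fintype.piFinset fun i => Finset.Icc ⌈ξ i - 2 ^ a⌉ ⌊ξ i + 2 ^ a⌋

lemma nb_zero (χ : 𝓢(E d, ℂ)) (a : ℕ) (ha : ∀ ξ, χ ξ ≠ 0 → ∀ i, |ξ i| ≤ 2 ^ a) (ξ : E d)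
    (m : Fin d → ℤ) (hm : m ∉ nb a ξ) : χ (ξ - pt m) = 0 := by
  by_contra hne
  apply hm
  have h := ha _ hne
  unfold nb
  rw [Fintype.mem_piFinset]
  intro i
  have e : (ξ - pt m) i = ξ i - m i := by simp [pt]
  have h1 := h i
  rw [e, abs_le] at h1
  rw [Finset.mem_Icc]
  constructor
  · rw [Int.ceil_le]
    linarith [h1.2]
  · rw [Int.le_floor]
    linarith [h1.1]

lemma nb_card (a : ℕ) (ξ : E d) : (nb a ξ).card ≤ (2 ^ (a + 1) + 1) ^ d := by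
  unfold nb
  rw [Fintype.card_piFinset]
  calc ∏ i, (Finset.Icc ⌈ξ i - 2 ^ a⌉ ⌊ξ i + 2 ^ a⌋).card ≤ ∏ _i : Fin d, (2 ^ (a + 1) + 1) := by
        refine Finset.prod_le_prod' fun i _ => ?_
        rw [Int.card_Icc]
        have h1 : (⌊ξ i + 2 ^ a⌋ : ℝ) ≤ ξ i + 2 ^ a := Int.floor_le _
        have h2 : ξ i - 2 ^ a ≤ (⌈ξ i - 2 ^ a⌉ : ℝ) := Int.le_ceil _
        have h3 : (⌊ξ i + 2 ^ a⌋ : ℝ) + 1 - ⌈ξ i - 2 ^ a⌉ ≤ ((2 ^ (a + 1) + 1 : ℤ) : ℝ) := by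
          push_cast
          rw [pow_succ]
          linarith
        have h4 : ⌊ξ i + 2 ^ a⌋ + 1 - ⌈ξ i - 2 ^ a⌉ ≤ (2 ^ (a + 1) + 1 : ℤ) := by
          exact_mod_cast h3
        rw [Int.toNat_le]
        push_cast
        exact h4
    _ = _ := by rw [Finset.prod_const, Finset.card_univ, Fintype.card_fin]

/-- bounded overlap -/
lemma overlap (χ : 𝓢(E d, ℂ)) (a : ℕ) (ha : ∀ ξ, χ ξ ≠ 0 → ∀ i, |ξ i| ≤ 2 ^ a) :
    ∃ B : ℝ, 0 ≤ B ∧ ∀ (ξ : E d) (T : Finset (Fin d → ℤ)), ∑ m ∈ T, ‖χ (ξ - pt m)‖ ≤ B := by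
  classical
  obtain ⟨M, hM⟩ : ∃ M : ℝ, ∀ y, ‖χ y‖ ≤ M := ⟨_, fun y => SchwartzMap.norm_le_seminorm ℝ χ y⟩
  have hM0 : 0 ≤ M := (norm_nonneg _).trans (hM 0)
  refine ⟨((2 ^ (a + 1) + 1 : ℕ) : ℝ) ^ d * M, by positivity, fun ξ T => ?_⟩
  calc ∑ m ∈ T, ‖χ (ξ - pt m)‖ = ∑ m ∈ T.filter (· ∈ nb a ξ), ‖χ (ξ - pt m)‖ := by
        rw [Finset.sum_filter]
        refine Finset.sum_congr rfl fun m _ => ?_
        split_ifs with h
        · rfl
        · rw [nb_zero χ a ha ξ m h, norm_zero]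
    _ ≤ ∑ _m ∈ T.filter (· ∈ nb a ξ), M := Finset.sum_le_sum fun m _ => hM _
    _ = (T.filter (· ∈ nb a ξ)).card * M := by rw [Finset.sum_const, nsmul_eq_mul]
    _ ≤ _ := by
        refine mul_le_mul_of_nonneg_right ?_ hM0
        have h1 : (T.filter (· ∈ nb a ξ)).card ≤ (nb a ξ).card :=
          Finset.card_le_card fun m hm => (Finset.mem_filter.1 hm).2
        exact_mod_cast h1.trans (nb_card a ξ)

lemma mlt_eq (χ : 𝓢(E d, ℂ)) (a : ℕ) (ha : ∀ ξ, χ ξ ≠ 0 → ∀ i, |ξ i| ≤ 2 ^ a)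
    (b : (Fin d → ℤ) → ℂ) (ξ : E d) (T : Finset (Fin d → ℤ)) (hT : nb a ξ ⊆ T) :
    mlt χ b ξ = ∑ m ∈ T, b m * χ (ξ - pt m) := by
  unfold mlt
  refine tsum_eq_sum fun m hm => ?_
  rw [nb_zero χ a ha ξ m fun h => hm (hT h), mul_zero]

/-- all lattice points of the first `N` shells -/
noncomputable def sh (d N : ℕ) : Finset (Fin d → ℤ) :=
  (Fintype.piFinset fun _ => Finset.Icc (-(2 ^ N : ℤ)) (2 ^ N)).filter
    fun m => Nat.size (nm m) < N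

lemma mem_sh (N : ℕ) (m : Fin d → ℤ) : m ∈ sh d N ↔ Nat.size (nm m) < N := by
  unfold sh
  rw [Finset.mem_filter, Fintype.mem_piFinset]
  constructor
  · exact fun h => h.2
  · intro h
    refine ⟨fun i => ?_, h⟩
    have h1 := abs_lt_of_size m _ rfl i
    have h2 : (2 : ℤ) ^ (Nat.size (nm m)) ≤ 2 ^ N := pow_le_pow_right₀ (by norm_num) h.le
    rw [Finset.mem_Icc]
    exact abs_le.1 (h1.le.trans h2)

lemma sum_sh (N : ℕ) (f : (Fin d → ℤ) → ℂ) :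
    ∑ c ∈ Finset.range N, ∑ m ∈ cl Set.univ c, f m = ∑ m ∈ sh d N, f m := by
  classical
  rw [← Finset.sum_fiberwise_of_maps_to (s := sh d N) (t := Finset.range N)
    (g := fun m => Nat.size (nm m)) (fun m hm => Finset.mem_range.2 ((mem_sh N m).1 hm))]
  refine Finset.sum_congr rfl fun c hc => ?_
  refine Finset.sum_congr ?_ fun _ _ => rfl
  ext m
  rw [mem_cl, Finset.mem_filter, mem_sh]
  constructor
  · rintro ⟨-, h⟩
    exact ⟨h ▸ Finset.mem_range.1 hc, h⟩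
  · rintro ⟨-, h⟩
    exact ⟨Set.mem_univ _, h⟩

/-- the cut-offs -/
noncomputable def cutM (a : ℕ) (χ : ℕ → E d → ℂ) (c : ℕ) : E d → ℂ :=
  if c ≤ a + 2 then fun _ => 1 else χ (c - 1)

/-- in the shell `c = k + 1`, `k ≥ a + 2`, the points at distance `2^a` of `m` are in the dyadic
annulus -/
lemma shellM (a : ℕ) (m : Fin d → ℤ) (k : ℕ) (hk : a + 2 ≤ k) (h : Nat.size (nm m) = k + 1)
    (ξ : E d) (hξ : ∀ i, |ξ i - m i| ≤ 2 ^ a) :
    (∃ i, (2 : ℝ) ^ k * (3 / 4) ≤ |ξ i|) ∧ ∀ i, |ξ i| ≤ (2 : ℝ) ^ k * (9 / 4) := by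
  have hk1 : (2 : ℝ) ^ a * 4 ≤ 2 ^ k := by
    calc (2 : ℝ) ^ a * 4 = 2 ^ (a + 2) := by rw [pow_add]; norm_num
      _ ≤ 2 ^ k := pow_le_pow_right₀ (by norm_num) hk
  constructor
  · have h1 : 2 ^ k ≤ nm m := Nat.lt_size.1 (by omega)
    obtain ⟨i, hi⟩ : ∃ i, 2 ^ k ≤ (m i).natAbs := by
      by_contra hcon
      push Not at hcon
      have h2 : nm m < 2 ^ k := by
        unfold nm
        rw [Finset.sup_lt_iff (by positivity)]
        exact fun i _ => hcon i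
      omega
    refine ⟨i, ?_⟩
    have h3 : (2 : ℝ) ^ k ≤ |(m i : ℝ)| := by
      have : ((2 ^ k : ℕ) : ℤ) ≤ |m i| := by
        rw [Int.abs_eq_natAbs]
        exact_mod_cast hi
      exact_mod_cast this
    have h4 := hξ i
    have h5 : |(m i : ℝ)| ≤ |ξ i| + |ξ i - m i| := by
      have : (m i : ℝ) = ξ i - (ξ i - m i) := by ring
      calc |(m i : ℝ)| = |ξ i - (ξ i - m i)| := by rw [← this]
        _ ≤ _ := abs_sub _ _
    linarith
  · intro i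
    have h1 := abs_lt_of_size m (k + 1) h i
    have h2 : |(m i : ℝ)| < 2 ^ (k + 1) := by exact_mod_cast h1
    have h4 := hξ i
    have h5 : |ξ i| ≤ |(m i : ℝ)| + |ξ i - m i| := by
      have : ξ i = (m i : ℝ) + (ξ i - m i) := by ring
      calc |ξ i| = |(m i : ℝ) + (ξ i - m i)| := by rw [← this]
        _ ≤ _ := abs_add_le _ _
    rw [pow_succ] at h2
    linarith

lemma cut_mulM (a : ℕ) (ψ : ℕ → E d → ℂ)
    (ψ1 : ∀ (k : ℕ) (ξ : E d), (∃ i, (2 : ℝ) ^ k * (3 / 4) ≤ |ξ i|) →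
      (∀ i, |ξ i| ≤ (2 : ℝ) ^ k * (9 / 4)) → ψ k ξ = 1) (K : 𝓢(E d, ℂ))
    (ha : ∀ ξ, 𝓕 (K : E d → ℂ) ξ ≠ 0 → ∀ i, |ξ i| ≤ 2 ^ a)
    (b : (Fin d → ℤ) → ℂ) (z : ℂ) (c : ℕ) (ξ : E d) :
    psia K (cl Set.univ c) b ξ * (cutM a ψ c ξ * z) = psia K (cl Set.univ c) b ξ * z := by
  by_cases hc : c ≤ a + 2
  · unfold cutM
    rw [if_pos hc, one_mul]
  · by_cases hz : ∀ m ∈ cl Set.univ c, 𝓕 (K : E d → ℂ) (ξ - pt m) = 0
    · have : psia K (cl Set.univ c) b ξ = 0 := by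
        unfold psia
        exact Finset.sum_eq_zero fun m hm => by rw [hz m hm, mul_zero]
      rw [this, zero_mul, zero_mul]
    · push Not at hz
      obtain ⟨m, hm, hne⟩ := hz
      have h1 := ha _ hne
      have h2 : ∀ i, |ξ i - m i| ≤ 2 ^ a := by
        intro i
        have := h1 i
        have e : (ξ - pt m) i = ξ i - m i := by simp [pt]
        rwa [e] at this
      have h3 := ((mem_cl _ c m).1 hm).2
      obtain ⟨k, rfl⟩ : ∃ k, c = k + 1 := ⟨c - 1, by omega⟩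
      have h4 := shellM a m k (by omega) h3 ξ h2
      unfold cutM
      rw [if_neg hc, Nat.add_sub_cancel, ψ1 k ξ h4.1 h4.2, one_mul]

end


end Pool.Agent.Run7.h88.LS
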