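import Pool.Agent.Run7.h88.LS.Loc
import Pool.Agent.N303.LS.Fin7

/-!
# Random multipliers and the wave equation (MP_ee74d2_an), part 2: one shell

The averaged version of `Pool.Agent.N303.LS.fin4g`.
-/

set_option autoImplicit false

namespace Pool.Agent.Run7.h88.LS

open MeasureTheory Pool.Agent.N303.LS Pool.Agent.N262.LS
open Pool.Agent.N492.LS (cu cu_meas cont_inv int_bdd cont_er inv_eq norm_e cont_fK bd_fK)
open scoped ENNReal FourierTransform RealInnerProductSpace SchwartzMap ComplexConjugate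

section

variable {d : ℕ} {Ω : Type} [MeasurableSpace Ω]

/-- the multiplied function is a combination of fixed functions -/
theorem inv_psia (K : 𝓢(E d, ℂ)) {F : E d → ℂ} (hF : Integrable F) (S : Finset (Fin d → ℤ))
    (a : (Fin d → ℤ) → ℂ) (x : E d) :
    inv (fun ξ => psia K S a ξ * F ξ) x =
      ∑ m ∈ S, a m * inv (fun ξ => psi K {m} ξ * F ξ) x := by
  have e1 : (fun ξ => psia K S a ξ * F ξ) = fun ξ => ∑ m ∈ S, a m * (psi K {m} ξ * F ξ) := by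
    funext ξ
    unfold psia psi
    rw [Finset.sum_mul]
    refine Finset.sum_congr rfl fun m _ => ?_
    rw [Finset.sum_singleton]
    ring
  rw [e1, inv_sum _ _ fun m _ => (psi_int K {m} F hF).const_mul _]
  refine Finset.sum_congr rfl fun m _ => ?_
  unfold inv
  rw [← integral_const_mul]
  refine integral_congr_ae (Filter.Eventually.of_forall fun ξ => ?_)
  simp only
  ring

theorem inv_psia_meas (K : 𝓢(E d, ℂ)) {F : E d → ℂ} (hF : Integrable F) (S : Finset (Fin d → ℤ))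
    {α : Ω → (Fin d → ℤ) → ℂ} (hα : ∀ m, Measurable fun ω => α ω m) :
    Measurable fun z : Ω × E d => inv (fun ξ => psia K S (α z.1) ξ * F ξ) z.2 := by
  simp only [inv_psia K hF S]
  exact Finset.measurable_fun_sum _ fun m _ => ((hα m).comp measurable_fst).mul
    ((inv_cont _ (psi_int K {m} F hF)).measurable.comp measurable_snd)

/-- the wave equation for random multipliers, one shell -/
theorem fin4M (hEN : S_EN) (hYOU : S_YOU) (hPD : S_PD) (hBW : S_BW) (d : ℕ) (p : ℝ) (hp : 2 ≤ p)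
    (K : 𝓢(E d, ℂ)) :
    ∃ C : ℝ, 0 < C ∧ ∀ (Ω : Type) [MeasurableSpace Ω] (μ : Measure Ω) [SFinite μ]
      (S : Finset (Fin d → ℤ)) (α : Ω → (Fin d → ℤ) → ℂ) (_ : ∀ m, Measurable fun ω => α ω m)
      (Λ : ℝ), 0 ≤ Λ → LamM μ p Λ S α →
    ∀ (f₀ f₁ g₀ : 𝓢(E d, ℂ)) (g : Fin d → 𝓢(E d, ℂ)),
    (∀ x, f₁ x = g₀ x + ∑ j, lineDeriv ℝ (g j) x (EuclideanSpace.single j (1 : ℝ))) →
    ∀ t : ℝ, 0 ≤ t → t ≤ 2 →
      ∫⁻ ω, (∫⁻ x : E d, ‖wave (fun ξ => psia K S (α ω) ξ * 𝓕 (f₀ : E d → ℂ) ξ)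
        (fun ξ => psia K S (α ω) ξ * 𝓕 (f₁ : E d → ℂ) ξ) t x‖ₑ ^ p) ∂μ ≤
        ENNReal.ofReal (C * Λ ^ p) *
          ((∫⁻ x : E d, ‖f₀ x‖ₑ ^ p) + (∫⁻ x : E d, ‖g₀ x‖ₑ ^ p) +
            ∑ j, ∫⁻ x : E d, ‖g j x‖ₑ ^ p) := by
  obtain ⟨C1, hC1, h1⟩ := llgM hPD hBW d (d + 1) p hp K
  obtain ⟨C2, hC2, h2⟩ := hEN d (d + 1) (by omega)
  obtain ⟨C3, hC3, h3⟩ := hYOU d (d + 1) (by omega) p hp
  refine ⟨((d : ℝ) + 2) ^ (p - 1) * C1 * C2 ^ (p / 2) * C3, by positivity, ?_⟩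
  intro Ω _ μ _ S α hα Λ hΛ hL f₀ f₁ g₀ g hf t h0 h2t
  have hp0 : 0 < p := by linarith
  have hw := fun ω => wave_eqa K S (α ω) f₀ f₁ g₀ g (fourier_gen f₁ g₀ g hf) t h0 h2t
  set P : Fin d ⊕ Bool → Ω → E d → ℂ := fun k ω x =>
    inv (fun ξ => psia K S (α ω) ξ * (sym k t ξ * 𝓕 (gen f₀ g₀ g k : E d → ℂ) ξ)) x with hP
  have hPm : ∀ k, Measurable fun z : Ω × E d => P k z.1 z.2 := fun k =>
    inv_psia_meas K (sym_int k t h0 h2t (gen f₀ g₀ g k)) S hα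
  have hPc : ∀ k ω, Continuous (P k ω) := fun k ω =>
    inv_cont _ (psia_int K S (α ω) _ (sym_int k t h0 h2t (gen f₀ g₀ g k)))
  have hw' : ∀ ω x, wave (fun ξ => psia K S (α ω) ξ * 𝓕 (f₀ : E d → ℂ) ξ)
        (fun ξ => psia K S (α ω) ξ * 𝓕 (f₁ : E d → ℂ) ξ) t x = ∑ k : Fin d ⊕ Bool, P k ω x :=
    fun ω x => hw ω x
  simp only [hw']
  have hms : ∀ k ω, Measurable fun x => ‖P k ω x‖ₑ ^ p :=
    fun k ω => ((hPc k ω).measurable.enorm).pow_const p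
  have hcard : (Finset.univ : Finset (Fin d ⊕ Bool)).card = d + 2 := by simp
  have s1 : ∀ ω, ∫⁻ x : E d, ‖∑ k : Fin d ⊕ Bool, P k ω x‖ₑ ^ p ≤
      ENNReal.ofReal (((d : ℝ) + 2) ^ (p - 1)) *
        ∑ k : Fin d ⊕ Bool, ∫⁻ x : E d, ‖P k ω x‖ₑ ^ p := by
    intro ω
    rw [← lintegral_finsetSum _ fun k _ => hms k ω, ← lintegral_const_mul']
    · refine lintegral_mono fun x => ?_
      have h3 := pow_sum p (by linarith) (Finset.univ : Finset (Fin d ⊕ Bool)) (fun k => P k ω x)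
      rw [hcard] at h3
      push_cast at h3
      exact h3
    · exact ENNReal.ofReal_ne_top
  have hm2 : ∀ k, Measurable fun ω => ∫⁻ x : E d, ‖P k ω x‖ₑ ^ p := fun k =>
    ((hPm k).enorm.pow_const p).lintegral_prod_right'
  have hm3 : ∀ k, Measurable fun x => ∫⁻ ω, (‖P k ω x‖ₑ ^ p) ∂μ := fun k =>
    ((hPm k).enorm.pow_const p).lintegral_prod_left'
  have s2 : ∀ k, ∫⁻ ω, (∫⁻ x : E d, ‖P k ω x‖ₑ ^ p) ∂μ ≤ ENNReal.ofReal (C1 * Λ ^ p) *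
      (ENNReal.ofReal (C2 ^ (p / 2)) * (ENNReal.ofReal C3 *
        ∫⁻ x : E d, ‖gen f₀ g₀ g k x‖ₑ ^ p)) := by
    intro k
    have a1 := Pool.Agent.N492.LS.avg 1 (hm3 k)
    calc ∫⁻ ω, (∫⁻ x : E d, ‖P k ω x‖ₑ ^ p) ∂μ = ∫⁻ x : E d, ∫⁻ ω, (‖P k ω x‖ₑ ^ p) ∂μ :=
          lintegral_lintegral_swap ((hPm k).enorm.pow_const p).aemeasurable
      _ ≤ volume (Pool.Agent.N492.LS.cu 1 (0 : E d)) *
          ∫⁻ x : E d, ∫⁻ ω, (‖P k ω x‖ₑ ^ p) ∂μ := le_mul_of_one_le_left (by positivity) (vol_cu d)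
      _ = ∫⁻ z : E d, ∫⁻ x in Pool.Agent.N492.LS.cu 1 z, ∫⁻ ω, (‖P k ω x‖ₑ ^ p) ∂μ := a1.symm
      _ = ∫⁻ z : E d, ∫⁻ ω, (∫⁻ x in Pool.Agent.N492.LS.cu 1 z, ‖P k ω x‖ₑ ^ p) ∂μ := by
          refine lintegral_congr fun z => ?_
          refine (lintegral_lintegral_swap ?_).symm
          exact ((hPm k).enorm.pow_const p).aemeasurable
      _ ≤ ∫⁻ z : E d, ENNReal.ofReal (C1 * Λ ^ p) *
          (ENNReal.ofReal (C2 ^ (p / 2)) * nrg (d + 1) (gen f₀ g₀ g k) z ^ (p / 2)) := by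
          refine lintegral_mono fun z => ?_
          have b1 := h1 Ω μ S α hα Λ hΛ hL _ (sym_int k t h0 h2t (gen f₀ g₀ g k)) z
          have b2 := h2 (gen f₀ g₀ g k) z t h0 h2t k
          refine b1.trans ?_
          gcongr
          refine (ENNReal.rpow_le_rpow b2 (by positivity)).trans (le_of_eq ?_)
          rw [ENNReal.mul_rpow_of_nonneg _ _ (by positivity),
            ENNReal.ofReal_rpow_of_nonneg hC2.le (by positivity)]
      _ = ENNReal.ofReal (C1 * Λ ^ p) * (ENNReal.ofReal (C2 ^ (p / 2)) *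
          ∫⁻ z : E d, nrg (d + 1) (gen f₀ g₀ g k) z ^ (p / 2)) := by
          rw [lintegral_const_mul' _ _ ENNReal.ofReal_ne_top,
            lintegral_const_mul' _ _ ENNReal.ofReal_ne_top]
      _ ≤ _ := by
          gcongr
          exact h3 _
  have s3 : ∑ k : Fin d ⊕ Bool, ∫⁻ x : E d, ‖(gen f₀ g₀ g k) x‖ₑ ^ p =
      (∫⁻ x : E d, ‖f₀ x‖ₑ ^ p) + (∫⁻ x : E d, ‖g₀ x‖ₑ ^ p) +
        ∑ j, ∫⁻ x : E d, ‖g j x‖ₑ ^ p := by
    rw [Fintype.sum_sum_type, Fintype.sum_bool, add_comm]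
    rfl
  calc ∫⁻ ω, (∫⁻ x : E d, ‖∑ k : Fin d ⊕ Bool, P k ω x‖ₑ ^ p) ∂μ
      ≤ ∫⁻ ω, (ENNReal.ofReal (((d : ℝ) + 2) ^ (p - 1)) *
        ∑ k : Fin d ⊕ Bool, ∫⁻ x : E d, ‖P k ω x‖ₑ ^ p) ∂μ := lintegral_mono s1
    _ = ENNReal.ofReal (((d : ℝ) + 2) ^ (p - 1)) *
        ∑ k : Fin d ⊕ Bool, ∫⁻ ω, (∫⁻ x : E d, ‖P k ω x‖ₑ ^ p) ∂μ := by
        rw [lintegral_const_mul' _ _ ENNReal.ofReal_ne_top, lintegral_finsetSum _ fun k _ => hm2 k]
    _ ≤ ENNReal.ofReal (((d : ℝ) + 2) ^ (p - 1)) *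
      ∑ k : Fin d ⊕ Bool, ENNReal.ofReal (C1 * Λ ^ p) *
      (ENNReal.ofReal (C2 ^ (p / 2)) * (ENNReal.ofReal C3 *
        ∫⁻ x : E d, ‖gen f₀ g₀ g k x‖ₑ ^ p)) := by
        gcongr with k _
        exact s2 k
    _ = _ := by
        rw [← Finset.mul_sum, ← Finset.mul_sum, ← Finset.mul_sum, s3]
        have e6 : ENNReal.ofReal (((d : ℝ) + 2) ^ (p - 1) * C1 * C2 ^ (p / 2) * C3 * Λ ^ p) =
            ENNReal.ofReal (((d : ℝ) + 2) ^ (p - 1)) * ENNReal.ofReal (C1 * Λ ^ p) *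
              ENNReal.ofReal (C2 ^ (p / 2)) * ENNReal.ofReal C3 := by
          rw [← ENNReal.ofReal_mul (by positivity), ← ENNReal.ofReal_mul (by positivity),
            ← ENNReal.ofReal_mul (by positivity)]
          congr 1
          ring
        rw [e6]
        ring

end

end Pool.Agent.Run7.h88.LS
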